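import Mathlib

/-!
# Jets of monomials as combinations of values (discrete Cauchy formula), and a norm bound for
determinants whose rows are sums
-/

namespace Pool.Agent.H30.MM

open Finset

/-- The coefficients of the discrete Cauchy formula with radius `1/4`. -/
noncomputable def dftc (M j w : ℕ) : ℂ :=
  (4 : ℂ) ^ j * (Complex.exp (2 * Real.pi * Complex.I / M) ^ w)⁻¹ ^ j / M

/-- The sample points. -/
noncomputable def dftz (M w : ℕ) : ℂ :=
  Complex.exp (2 * Real.pi * Complex.I / M) ^ w / 4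

theorem norm_zeta (M : ℕ) : ‖Complex.exp (2 * Real.pi * Complex.I / M)‖ = 1 := by
  have : (2 * Real.pi * Complex.I / M : ℂ) = ((2 * Real.pi / M : ℝ) : ℂ) * Complex.I := by
    push_cast; ring
  rw [this, Complex.norm_exp_ofReal_mul_I]

theorem norm_dftz (M w : ℕ) : ‖dftz M w‖ = 1 / 4 := by
  rw [dftz, norm_div, norm_pow, norm_zeta, one_pow]
  norm_num

theorem norm_dftc (M j w : ℕ) : ‖dftc M j w‖ = (4 : ℝ) ^ j / M := by
  rw [dftc, norm_div, norm_mul, norm_pow, norm_pow, norm_inv, norm_pow, norm_zeta]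
  simp

/-- The discrete Cauchy formula for monomials. -/
theorem dft_monomial (M i j : ℕ) (hi : i < M) (hj : j < M) (a : ℂ) :
    ((i.choose j : ℕ) : ℂ) * a ^ (i - j) =
      ∑ w ∈ range M, dftc M j w * (a + dftz M w) ^ i := by
  have hM : M ≠ 0 := by omega
  have hMc : (M : ℂ) ≠ 0 := by exact_mod_cast hM
  set ζ : ℂ := Complex.exp (2 * Real.pi * Complex.I / M) with hζ
  have hprim : IsPrimitiveRoot ζ M := Complex.isPrimitiveRoot_exp M hM
  have hζ0 : ζ ≠ 0 := Complex.exp_ne_zero _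
  -- orthogonality
  have horth : ∀ k, k < M → ∑ w ∈ range M, (ζ ^ w)⁻¹ ^ j * (ζ ^ w) ^ k =
      if k = j then (M : ℂ) else 0 := by
    intro k hk
    by_cases hkj : k = j
    · subst hkj
      rw [if_pos rfl]
      have : ∀ w ∈ range M, (ζ ^ w)⁻¹ ^ k * (ζ ^ w) ^ k = 1 := by
        intro w _
        rw [← mul_pow, inv_mul_cancel₀ (pow_ne_zero _ hζ0), one_pow]
      rw [Finset.sum_congr rfl this]
      simp
    · rw [if_neg hkj]
      have h1 : ∀ w ∈ range M, (ζ ^ w)⁻¹ ^ j * (ζ ^ w) ^ k = ((ζ ^ j)⁻¹ * ζ ^ k) ^ w := by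
        intro w _
        rw [inv_pow, ← pow_mul, ← pow_mul, mul_pow, inv_pow, ← pow_mul, ← pow_mul,
          mul_comm w j, mul_comm w k]
      rw [Finset.sum_congr rfl h1]
      set x : ℂ := (ζ ^ j)⁻¹ * ζ ^ k with hx
      have hxM : x ^ M = 1 := by
        rw [hx, mul_pow, inv_pow, ← pow_mul, ← pow_mul, mul_comm j M, mul_comm k M, pow_mul,
          pow_mul, hprim.pow_eq_one, one_pow, one_pow, inv_one, one_mul]
      have hx1 : x ≠ 1 := by
        intro h
        rw [hx, inv_mul_eq_iff_eq_mul₀ (pow_ne_zero _ hζ0), mul_one] at h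
        exact hkj (hprim.pow_inj hk hj h)
      have h2 := geom_sum_mul x M
      rw [hxM, sub_self] at h2
      rcases mul_eq_zero.1 h2 with h | h
      · exact h
      · exact absurd (sub_eq_zero.1 h) hx1
  have hexp : ∀ w ∈ range M, dftc M j w * (a + dftz M w) ^ i =
      ∑ k ∈ range (i + 1), (a ^ (i - k) * ((i.choose k : ℕ) : ℂ) * (4 : ℂ) ^ j / (4 : ℂ) ^ k / M) *
        ((ζ ^ w)⁻¹ ^ j * (ζ ^ w) ^ k) := by
    intro w _
    rw [add_comm a, add_pow, Finset.mul_sum]
    refine Finset.sum_congr rfl fun k _ => ?_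
    rw [dftc, dftz, ← hζ, div_pow]
    field_simp
  rw [Finset.sum_congr rfl hexp, Finset.sum_comm]
  have h3 : ∀ k ∈ range (i + 1), ∑ w ∈ range M,
      (a ^ (i - k) * ((i.choose k : ℕ) : ℂ) * (4 : ℂ) ^ j / (4 : ℂ) ^ k / M) *
        ((ζ ^ w)⁻¹ ^ j * (ζ ^ w) ^ k) =
      if k = j then a ^ (i - k) * ((i.choose k : ℕ) : ℂ) else 0 := by
    intro k hk
    rw [← Finset.mul_sum, horth k (by have := Finset.mem_range.1 hk; omega)]
    by_cases hkj : k = j
    · subst hkj
      rw [if_pos rfl, if_pos rfl]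
      field_simp
    · rw [if_neg hkj, if_neg hkj, mul_zero]
  rw [Finset.sum_congr rfl h3, Finset.sum_ite_eq']
  by_cases hij : j ∈ range (i + 1)
  · rw [if_pos hij]; ring
  · rw [if_neg hij]
    have : i < j := by
      by_contra h
      exact hij (Finset.mem_range.2 (by omega))
    rw [Nat.choose_eq_zero_of_lt this]
    simp

/-- Norm of a determinant whose rows are sums. -/
theorem det_sum_rows {ι T : Type*} [Fintype ι] [DecidableEq ι] [Fintype T] [DecidableEq T]
    (c : ι → T → ℂ) (V : ι → T → ι → ℂ) (B : ℝ)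
    (hB : ∀ f : ι → T, ‖(Matrix.of fun r => V r (f r)).det‖ ≤ B) :
    ‖(Matrix.of fun r k => ∑ s, c r s * V r s k).det‖ ≤ (∏ r, ∑ s, ‖c r s‖) * B := by
  classical
  have h1 : (Matrix.of fun r k => ∑ s, c r s * V r s k).det =
      ∑ f : ι → T, (∏ r, c r (f r)) * (Matrix.of fun r => V r (f r)).det := by
    have e1 : (Matrix.of fun (r : ι) (k : ι) => ∑ s, c r s * V r s k).det =
        (Matrix.detRowAlternating : (ι → ℂ) [⋀^ι]→ₗ[ℂ] ℂ).toMultilinearMap
          (fun r => ∑ s, (c r s) • (V r s)) := by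
      have : (fun (r : ι) (k : ι) => ∑ s, c r s * V r s k) =
          fun r => ∑ s, (c r s) • (V r s) := by
        funext r k
        simp [Finset.sum_apply]
      rw [this]
      rfl
    rw [e1, MultilinearMap.map_sum]
    refine Finset.sum_congr rfl fun f _ => ?_
    rw [MultilinearMap.map_smul_univ, smul_eq_mul]
    rfl
  rw [h1]
  calc ‖∑ f : ι → T, (∏ r, c r (f r)) * (Matrix.of fun r => V r (f r)).det‖
      ≤ ∑ f : ι → T, ‖(∏ r, c r (f r)) * (Matrix.of fun r => V r (f r)).det‖ :=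
        norm_sum_le _ _
    _ ≤ ∑ f : ι → T, (∏ r, ‖c r (f r)‖) * B := by
        refine Finset.sum_le_sum fun f _ => ?_
        rw [norm_mul, norm_prod]
        exact mul_le_mul_of_nonneg_left (hB f) (Finset.prod_nonneg fun _ _ => norm_nonneg _)
    _ = (∏ r, ∑ s, ‖c r s‖) * B := by
        rw [← Finset.sum_mul, Finset.prod_univ_sum]
        rfl

end Pool.Agent.H30.MM
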