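import Mathlib

/-!
# The logarithmic kernel is conditionally negative definite (discrete Polya lemma)

For a finite set `S` of integers of diameter at most `L` and any real weights `t` on it,
`∑_{a,b} t_a t_b log |a - b| ≤ (∑ t)^2 log L + (log 2) ∑ t_a^2`.
Proof: the function `n ↦ (log L - log n)^+` (with the value `log L + log 2` at `0`) is convex and
nonnegative, hence a nonnegative combination of the triangle functions `(k - n)^+`, and
`∑ t_a t_b (k - |a - b|)^+ = ∑_x (∑_{x ≤ a < x + k} t_a)^2`.
-/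

namespace Pool.Agent.H30.MM

open Finset

/-- The triangle kernel is positive semidefinite. -/
theorem tri_nonneg (S : Finset ℤ) (t : ℤ → ℝ) (k : ℕ) :
    0 ≤ ∑ a ∈ S, ∑ b ∈ S, t a * t b * ((((k : ℤ) - |a - b|).toNat : ℕ) : ℝ) := by
  classical
  set X : Finset ℤ := S.biUnion (fun a => Finset.Ioc (a - k) a) with hX
  have key : ∀ a ∈ S, ∀ b ∈ S,
      ((((k : ℤ) - |a - b|).toNat : ℕ) : ℝ) =
        ∑ x ∈ X, (if x ∈ Finset.Ioc (a - k) a then (1 : ℝ) else 0) *
          (if x ∈ Finset.Ioc (b - k) b then (1 : ℝ) else 0) := by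
    intro a ha b hb
    have h1 : ∀ x : ℤ, (if x ∈ Finset.Ioc (a - k) a then (1 : ℝ) else 0) *
          (if x ∈ Finset.Ioc (b - k) b then (1 : ℝ) else 0) =
        if x ∈ Finset.Ioc (a - k) a ∩ Finset.Ioc (b - k) b then (1 : ℝ) else 0 := by
      intro x
      by_cases h : x ∈ Finset.Ioc (a - k) a
      · by_cases h' : x ∈ Finset.Ioc (b - k) b
        · rw [if_pos h, if_pos h', if_pos (Finset.mem_inter.2 ⟨h, h'⟩)]; norm_num
        · rw [if_neg h', if_neg (fun hh => h' (Finset.mem_inter.1 hh).2)]; simp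
      · rw [if_neg h, if_neg (fun hh => h (Finset.mem_inter.1 hh).1)]; simp
    simp only [h1]
    have hsub : Finset.Ioc (a - k) a ∩ Finset.Ioc (b - k) b ⊆ X := by
      intro x hx
      exact Finset.mem_biUnion.2 ⟨a, ha, (Finset.mem_inter.1 hx).1⟩
    rw [← Finset.sum_filter, Finset.sum_const, nsmul_eq_mul, mul_one]
    have h2 : Finset.filter (fun x => x ∈ Finset.Ioc (a - k) a ∩ Finset.Ioc (b - k) b) X =
        Finset.Ioc (a - k) a ∩ Finset.Ioc (b - k) b := by
      ext x
      simp only [Finset.mem_filter]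
      exact ⟨fun h => h.2, fun h => ⟨hsub h, h⟩⟩
    rw [h2, Finset.Ioc_inter_Ioc, Int.card_Ioc]
    congr 2
    rcases le_total a b with h | h
    · rw [abs_of_nonpos (by linarith)]
      rw [show (a - (k : ℤ)) ⊔ (b - k) = b - k from max_eq_right (by linarith),
        show a ⊓ b = a from min_eq_left h]
      ring
    · rw [abs_of_nonneg (by linarith)]
      rw [show (a - (k : ℤ)) ⊔ (b - k) = a - k from max_eq_left (by linarith),
        show a ⊓ b = b from min_eq_right h]
      ring
  have h3 : ∑ a ∈ S, ∑ b ∈ S, t a * t b * ((((k : ℤ) - |a - b|).toNat : ℕ) : ℝ) =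
      ∑ x ∈ X, (∑ a ∈ S, t a * (if x ∈ Finset.Ioc (a - k) a then (1 : ℝ) else 0)) ^ 2 := by
    have h4 : ∀ x ∈ X, (∑ a ∈ S, t a * (if x ∈ Finset.Ioc (a - k) a then (1 : ℝ) else 0)) ^ 2 =
        ∑ a ∈ S, ∑ b ∈ S, t a * t b * ((if x ∈ Finset.Ioc (a - k) a then (1 : ℝ) else 0) *
          (if x ∈ Finset.Ioc (b - k) b then (1 : ℝ) else 0)) := by
      intro x _
      rw [sq, Finset.sum_mul_sum]
      refine Finset.sum_congr rfl fun a _ => Finset.sum_congr rfl fun b _ => ?_
      ring
    rw [Finset.sum_congr rfl h4, Finset.sum_comm (s := X)]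
    refine Finset.sum_congr rfl fun a ha => ?_
    rw [Finset.sum_comm (s := X)]
    refine Finset.sum_congr rfl fun b hb => ?_
    rw [key a ha b hb, Finset.mul_sum]
  rw [h3]
  exact Finset.sum_nonneg fun x _ => sq_nonneg _

/-- Abel summation: a function is the combination of triangle functions with its second
differences as coefficients, up to boundary terms. -/
theorem second_diff (f : ℕ → ℝ) (n : ℕ) : ∀ N, n ≤ N →
    ∑ k ∈ Finset.range N, (f k - 2 * f (k + 1) + f (k + 2)) * (((k + 1 - n : ℕ) : ℝ)) =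
      f n - f N - ((N : ℝ) - n) * (f N - f (N + 1)) := by
  intro N hN
  induction N, hN using Nat.le_induction with
  | base =>
    rw [Finset.sum_eq_zero]
    · ring
    · intro k hk
      have : k + 1 - n = 0 := by
        have := Finset.mem_range.1 hk
        omega
      rw [this]; simp
  | succ N hN ih =>
    rw [Finset.sum_range_succ, ih]
    have h1 : ((N + 1 - n : ℕ) : ℝ) = (N : ℝ) + 1 - n := by
      rw [Nat.cast_sub (by omega)]; push_cast; ring
    rw [h1]
    push_cast
    ring

/-- The truncated logarithmic function. -/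
noncomputable def psi (L n : ℕ) : ℝ :=
  if n = 0 then Real.log L + Real.log 2 else max 0 (Real.log L - Real.log n)

private theorem psi_zero (L : ℕ) : psi L 0 = Real.log L + Real.log 2 := by simp [psi]

private theorem psi_pos (L n : ℕ) (h : n ≠ 0) : psi L n = max 0 (Real.log L - Real.log n) := by
  simp [psi, h]

private theorem psi_ge (L n : ℕ) (h : n ≠ 0) : Real.log L - Real.log n ≤ psi L n := by
  rw [psi_pos L n h]; exact le_max_right _ _

private theorem psi_nonneg (L n : ℕ) (hL : 1 ≤ L) : 0 ≤ psi L n := by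
  by_cases h : n = 0
  · rw [h, psi_zero]
    have h1 : 0 ≤ Real.log L := Real.log_nonneg (by exact_mod_cast hL)
    have h2 : 0 ≤ Real.log 2 := Real.log_nonneg (by norm_num)
    linarith
  · rw [psi_pos L n h]; exact le_max_left _ _

private theorem psi_conv (L : ℕ) (hL : 1 ≤ L) (k : ℕ) :
    0 ≤ psi L k - 2 * psi L (k + 1) + psi L (k + 2) := by
  by_cases h0 : Real.log L - Real.log ((k + 1 : ℕ) : ℝ) ≤ 0
  · have h1 : psi L (k + 1) = 0 := by
      rw [psi_pos L (k + 1) (by omega)]; exact max_eq_left h0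
    rw [h1]
    have h2 := psi_nonneg L k hL
    have h3 := psi_nonneg L (k + 2) hL
    linarith
  · push Not at h0
    have h1 : psi L (k + 1) = Real.log L - Real.log ((k + 1 : ℕ) : ℝ) := by
      rw [psi_pos L (k + 1) (by omega)]; exact max_eq_right h0.le
    have h3 := psi_ge L (k + 2) (by omega)
    by_cases hk : k = 0
    · subst hk
      rw [psi_zero, h1]
      norm_num at h3 ⊢
      linarith
    · have h2 := psi_ge L k hk
      rw [h1]
      have hkpos : (0 : ℝ) < k := by exact_mod_cast Nat.pos_of_ne_zero hk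
      have h4 : Real.log k + Real.log ((k + 2 : ℕ) : ℝ) ≤ 2 * Real.log ((k + 1 : ℕ) : ℝ) := by
        have e1 : Real.log k + Real.log ((k + 2 : ℕ) : ℝ) = Real.log (k * ((k + 2 : ℕ) : ℝ)) := by
          rw [Real.log_mul (by positivity) (by positivity)]
        have e2 : 2 * Real.log ((k + 1 : ℕ) : ℝ) = Real.log (((k + 1 : ℕ) : ℝ) ^ 2) := by
          rw [Real.log_pow]; norm_num
        rw [e1, e2]
        apply Real.log_le_log (by positivity)
        push_cast
        nlinarith
      linarith

/-- The logarithmic kernel on a finite set of integers. -/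
theorem log_kernel (S : Finset ℤ) (t : ℤ → ℝ) (L : ℕ) (hL : 1 ≤ L)
    (hS : ∀ a ∈ S, ∀ b ∈ S, |a - b| ≤ L) :
    ∑ a ∈ S, ∑ b ∈ S, t a * t b * Real.log |((a : ℝ) - b)| ≤
      (∑ a ∈ S, t a) ^ 2 * Real.log L + Real.log 2 * ∑ a ∈ S, (t a) ^ 2 := by
  classical
  have hLr : (1 : ℝ) ≤ (L : ℝ) := by exact_mod_cast hL
  -- value of psi at the distances
  have hval : ∀ a ∈ S, ∀ b ∈ S, psi L (a - b).natAbs =
      Real.log L - Real.log |((a : ℝ) - b)| + (if a = b then Real.log 2 else 0) := by
    intro a ha b hb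
    by_cases hab : a = b
    · subst hab
      simp [psi_zero]
    · have hne : (a - b).natAbs ≠ 0 := by
        rw [Int.natAbs_ne_zero]; exact sub_ne_zero.2 hab
      rw [psi_pos _ _ hne, if_neg hab, add_zero]
      have hcast : (((a - b).natAbs : ℕ) : ℝ) = |((a : ℝ) - b)| := by
        rw [Nat.cast_natAbs]; push_cast; rfl
      rw [hcast]
      apply max_eq_right
      have h1 : |((a : ℝ) - b)| ≤ (L : ℝ) := by
        have := hS a ha b hb
        exact_mod_cast this
      have h2 : (0 : ℝ) < |((a : ℝ) - b)| := by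
        rw [abs_pos]
        intro h
        apply hab
        have : (a : ℝ) = b := by linarith
        exact_mod_cast this
      have := Real.log_le_log h2 h1
      linarith
  -- decomposition
  have hdec : ∀ n : ℕ, n ≤ L → psi L n =
      ∑ k ∈ Finset.range (L + 1), (psi L k - 2 * psi L (k + 1) + psi L (k + 2)) *
        (((k + 1 - n : ℕ) : ℝ)) := by
    intro n hn
    rw [second_diff (psi L) n (L + 1) (by omega)]
    have h1 : ∀ j : ℕ, psi L (L + 1 + j) = 0 := by
      intro j
      rw [psi_pos _ _ (by omega)]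
      apply max_eq_left
      have : Real.log (L : ℝ) ≤ Real.log ((L + 1 + j : ℕ) : ℝ) := by
        apply Real.log_le_log (by linarith)
        push_cast
        have : (0 : ℝ) ≤ (j : ℝ) := Nat.cast_nonneg j
        linarith
      linarith
    have h2 := h1 0
    have h3 := h1 1
    rw [add_zero] at h2
    rw [h2, h3]
    ring
  have hsum : 0 ≤ ∑ a ∈ S, ∑ b ∈ S, t a * t b * psi L (a - b).natAbs := by
    have e : ∑ a ∈ S, ∑ b ∈ S, t a * t b * psi L (a - b).natAbs =
        ∑ k ∈ Finset.range (L + 1), (psi L k - 2 * psi L (k + 1) + psi L (k + 2)) *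
          ∑ a ∈ S, ∑ b ∈ S, t a * t b * (((((k + 1 : ℕ) : ℤ) - |a - b|).toNat : ℕ) : ℝ) := by
      have e1 : ∀ a ∈ S, ∀ b ∈ S, t a * t b * psi L (a - b).natAbs =
          ∑ k ∈ Finset.range (L + 1), (psi L k - 2 * psi L (k + 1) + psi L (k + 2)) *
            (t a * t b * (((((k + 1 : ℕ) : ℤ) - |a - b|).toNat : ℕ) : ℝ)) := by
        intro a ha b hb
        have hle : (a - b).natAbs ≤ L := by
          have := hS a ha b hb
          rw [Int.abs_eq_natAbs] at this
          exact_mod_cast this
        rw [hdec _ hle, Finset.mul_sum]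
        refine Finset.sum_congr rfl fun k _ => ?_
        have : ((((k + 1 : ℕ) : ℤ) - |a - b|).toNat) = k + 1 - (a - b).natAbs := by
          rw [Int.abs_eq_natAbs]
          omega
        rw [this]
        ring
      rw [Finset.sum_congr rfl fun a ha => Finset.sum_congr rfl fun b hb => e1 a ha b hb]
      simp only [Finset.mul_sum]
      rw [Finset.sum_congr rfl fun a _ => Finset.sum_comm]
      rw [Finset.sum_comm]
    rw [e]
    exact Finset.sum_nonneg fun k _ => mul_nonneg (psi_conv L hL k) (tri_nonneg S t (k + 1))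
  have hfin : ∑ a ∈ S, ∑ b ∈ S, t a * t b * psi L (a - b).natAbs =
      (∑ a ∈ S, t a) ^ 2 * Real.log L + Real.log 2 * ∑ a ∈ S, (t a) ^ 2 -
        ∑ a ∈ S, ∑ b ∈ S, t a * t b * Real.log |((a : ℝ) - b)| := by
    have e1 : ∀ a ∈ S, ∑ b ∈ S, t a * t b * psi L (a - b).natAbs =
        (∑ b ∈ S, t a * t b) * Real.log L + Real.log 2 * (t a) ^ 2 -
          ∑ b ∈ S, t a * t b * Real.log |((a : ℝ) - b)| := by
      intro a ha
      rw [Finset.sum_congr rfl fun b hb => by rw [hval a ha b hb]]
      have e2 : ∀ b ∈ S, t a * t b * (Real.log L - Real.log |((a : ℝ) - b)| +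
          (if a = b then Real.log 2 else 0)) =
          t a * t b * Real.log L - t a * t b * Real.log |((a : ℝ) - b)| +
            (if a = b then t a * t b * Real.log 2 else 0) := by
        intro b _
        split_ifs <;> ring
      rw [Finset.sum_congr rfl e2, Finset.sum_add_distrib, Finset.sum_sub_distrib,
        Finset.sum_ite_eq, if_pos ha, ← Finset.sum_mul]
      ring
    rw [Finset.sum_congr rfl e1, Finset.sum_sub_distrib, Finset.sum_add_distrib,
      ← Finset.sum_mul, ← Finset.mul_sum, sq, Finset.sum_mul_sum]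
  rw [hfin] at hsum
  linarith

end Pool.Agent.H30.MM
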