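import Mathlib

/-!
# Determinants with rows `(z^i | 0)` and `(0 | z^i)`
-/

namespace Pool.Agent.H30.MM

open Finset

/-- The square of the norm of a Vandermonde determinant. -/
theorem norm_vdm_sq {n : ℕ} (v : Fin n → ℂ) :
    ‖(Matrix.vandermonde v).det‖ ^ 2 = ∏ i, ∏ j, if i = j then (1 : ℝ) else ‖v i - v j‖ := by
  classical
  rw [Matrix.det_vandermonde, norm_prod]
  simp only [norm_prod]
  -- the product over ordered pairs splits
  have h1 : (∏ i, ∏ j, if i = j then (1 : ℝ) else ‖v i - v j‖) =
      (∏ i, ∏ j ∈ Ioi i, ‖v j - v i‖) * (∏ i, ∏ j ∈ Iio i, ‖v j - v i‖) := by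
    rw [← Finset.prod_mul_distrib]
    refine Finset.prod_congr rfl fun i _ => ?_
    have h2 : (∏ j, if i = j then (1 : ℝ) else ‖v i - v j‖) =
        ∏ j ∈ Finset.univ.erase i, ‖v j - v i‖ := by
      rw [← Finset.mul_prod_erase Finset.univ _ (Finset.mem_univ i), if_pos rfl, one_mul]
      refine Finset.prod_congr rfl fun j hj => ?_
      rw [if_neg (Finset.ne_of_mem_erase hj).symm, norm_sub_rev]
    rw [h2, ← Finset.prod_union]
    · refine Finset.prod_congr ?_ fun _ _ => rfl
      ext j
      simp only [Finset.mem_erase, Finset.mem_univ, and_true, Finset.mem_union, Finset.mem_Ioi,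
        Finset.mem_Iio]
      constructor
      · intro h
        rcases lt_or_gt_of_ne h with h | h
        · exact Or.inr h
        · exact Or.inl h
      · rintro (h | h)
        · exact ne_of_gt h
        · exact ne_of_lt h
    · rw [Finset.disjoint_left]
      intro j hj hj'
      exact absurd (Finset.mem_Ioi.1 hj) (not_lt.2 (Finset.mem_Iio.1 hj').le)
  have h3 : (∏ i, ∏ j ∈ Iio i, ‖v j - v i‖) = ∏ i, ∏ j ∈ Ioi i, ‖v j - v i‖ := by
    have e1 : (∏ i, ∏ j ∈ Iio i, ‖v j - v i‖) =
        ∏ i, ∏ j, if j < i then ‖v j - v i‖ else 1 := by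
      refine Finset.prod_congr rfl fun i _ => ?_
      rw [← Finset.prod_filter]
      refine Finset.prod_congr ?_ fun _ _ => rfl
      ext j; simp
    have e2 : (∏ i, ∏ j ∈ Ioi i, ‖v j - v i‖) =
        ∏ i, ∏ j, if i < j then ‖v j - v i‖ else 1 := by
      refine Finset.prod_congr rfl fun i _ => ?_
      rw [← Finset.prod_filter]
      refine Finset.prod_congr ?_ fun _ _ => rfl
      ext j; simp
    rw [e1, e2, Finset.prod_comm]
    refine Finset.prod_congr rfl fun i _ => Finset.prod_congr rfl fun j _ => ?_
    split_ifs
    · exact norm_sub_rev _ _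
    · rfl
  rw [h1, h3, sq]

variable {ι : Type*} [Fintype ι] [DecidableEq ι]

/-- The typed row. -/
noncomputable def trow (n1 n2 : ℕ) (ty : Bool) (z : ℂ) : Fin n1 ⊕ Fin n2 → ℂ :=
  Sum.elim (fun i => if ty then z ^ (i : ℕ) else 0) (fun i => if ty then 0 else z ^ (i : ℕ))

/-- The determinant with typed rows. -/
theorem norm_det_trow_sq (n1 n2 : ℕ) (ty : Fin n1 ⊕ Fin n2 → Bool) (z : Fin n1 ⊕ Fin n2 → ℂ) :
    ‖(Matrix.of fun r => trow n1 n2 (ty r) (z r)).det‖ ^ 2 ≤
      (if (Finset.univ.filter (fun r => ty r = true)).card = n1 then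
        ∏ r, ∏ s, if r ≠ s ∧ ty r = ty s then ‖z r - z s‖ else 1 else 0) := by
  classical
  by_cases hc : (Finset.univ.filter (fun r => ty r = true)).card = n1
  · rw [if_pos hc]
    -- the equivalence
    have hcA : Fintype.card {r // ty r = true} = n1 := by
      rw [Fintype.card_subtype]; exact hc
    have hcB : Fintype.card {r // ¬ ty r = true} = n2 := by
      rw [Fintype.card_subtype_compl, hcA]
      simp
    let eA : Fin n1 ≃ {r // ty r = true} := (Fintype.equivFinOfCardEq hcA).symm
    let eB : Fin n2 ≃ {r // ¬ ty r = true} := (Fintype.equivFinOfCardEq hcB).symm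
    let e : Fin n1 ⊕ Fin n2 ≃ Fin n1 ⊕ Fin n2 :=
      (Equiv.sumCongr eA eB).trans (Equiv.sumCompl (fun r => ty r = true))
    have heA : ∀ i, ty (e (Sum.inl i)) = true := by
      intro i
      simp only [e, Equiv.trans_apply, Equiv.sumCongr_apply, Sum.map_inl,
        Equiv.sumCompl_apply_inl]
      exact (eA i).2
    have heB : ∀ i, ty (e (Sum.inr i)) = false := by
      intro i
      simp only [e, Equiv.trans_apply, Equiv.sumCongr_apply, Sum.map_inr,
        Equiv.sumCompl_apply_inr]
      exact Bool.eq_false_iff.2 (eB i).2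
    set M : Matrix (Fin n1 ⊕ Fin n2) (Fin n1 ⊕ Fin n2) ℂ :=
      Matrix.of fun r => trow n1 n2 (ty r) (z r) with hM
    have hdet : M.submatrix e id = Matrix.fromBlocks
        (Matrix.vandermonde (fun i => z (e (Sum.inl i)))) 0 0
        (Matrix.vandermonde (fun i => z (e (Sum.inr i)))) := by
      have hsub : ∀ r c, (M.submatrix e id) r c = trow n1 n2 (ty (e r)) (z (e r)) c :=
        fun r c => rfl
      ext r c
      rw [hsub]
      rcases r with r | r <;> rcases c with c | c <;>
        simp [trow, heA, heB, Matrix.vandermonde]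
    have hperm : ‖M.det‖ = ‖(M.submatrix e id).det‖ := by
      have h1 := Matrix.det_permute e M
      have : (M.submatrix e id).det = (Equiv.Perm.sign e : ℤ) * M.det := by
        rw [← h1]
      rw [this, norm_mul]
      rcases Int.units_eq_one_or (Equiv.Perm.sign e) with h | h <;> rw [h] <;> simp
    rw [hperm, hdet, Matrix.det_fromBlocks_zero₂₁, norm_mul, mul_pow, norm_vdm_sq, norm_vdm_sq]
    -- reindex the right side
    have hR : (∏ r, ∏ s, if r ≠ s ∧ ty r = ty s then ‖z r - z s‖ else (1 : ℝ)) =
        ∏ r, ∏ s, if e r ≠ e s ∧ ty (e r) = ty (e s) then ‖z (e r) - z (e s)‖ else (1 : ℝ) := by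
      rw [← Equiv.prod_comp e]
      refine Finset.prod_congr rfl fun r _ => ?_
      rw [← Equiv.prod_comp e]
    rw [hR, Fintype.prod_sum_type]
    simp only [Fintype.prod_sum_type, heA, heB, EmbeddingLike.apply_eq_iff_eq, ne_eq,
      Sum.inl.injEq, Sum.inr.injEq, and_true, Bool.true_eq_false, Bool.false_eq_true, and_false,
      if_false, Finset.prod_const_one, mul_one, one_mul, reduceCtorEq, not_false_eq_true]
    apply le_of_eq
    congr 1
    · refine Finset.prod_congr rfl fun i _ => Finset.prod_congr rfl fun j _ => ?_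
      by_cases h : i = j
      · simp [h]
      · simp [h]
    · refine Finset.prod_congr rfl fun i _ => Finset.prod_congr rfl fun j _ => ?_
      by_cases h : i = j
      · simp [h]
      · simp [h]
  · rw [if_neg hc]
    have hdet : (Matrix.of fun r => trow n1 n2 (ty r) (z r)).det = 0 := by
      rw [Matrix.det_apply]
      apply Finset.sum_eq_zero
      intro σ _
      -- some row of the wrong type
      have : ∃ c, trow n1 n2 (ty (σ c)) (z (σ c)) c = 0 := by
        by_contra hcon
        push Not at hcon
        apply hc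
        have h1 : ∀ i : Fin n1, ty (σ (Sum.inl i)) = true := by
          intro i
          by_contra h
          apply hcon (Sum.inl i)
          simp [trow, Bool.eq_false_iff.2 h]
        have h2 : ∀ i : Fin n2, ty (σ (Sum.inr i)) = false := by
          intro i
          by_contra h
          apply hcon (Sum.inr i)
          simp [trow, Bool.eq_false_iff.not_left.1 h]
        have h3 : (Finset.univ.filter (fun r => ty r = true)) =
            (Finset.univ : Finset (Fin n1)).image (fun i => σ (Sum.inl i)) := by
          ext r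
          simp only [Finset.mem_filter, Finset.mem_univ, true_and, Finset.mem_image]
          constructor
          · intro hr
            rcases hs : σ.symm r with i | i
            · exact ⟨i, by rw [← hs]; simp⟩
            · exfalso
              have := h2 i
              rw [← hs] at this
              simp [hr] at this
          · rintro ⟨i, rfl⟩
            exact h1 i
        rw [h3, Finset.card_image_of_injective]
        · simp
        · intro i j hij
          exact Sum.inl_injective (σ.injective hij)
      obtain ⟨c, hc'⟩ := this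
      rw [Finset.prod_eq_zero (Finset.mem_univ c) (by rw [Matrix.of_apply]; exact hc'), smul_zero]
    rw [hdet]
    simp

end Pool.Agent.H30.MM
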