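import Mathlib
import Pool.Agent.H30.MM.LogKer
import Pool.Agent.H30.MM.Dft
import Pool.Agent.H30.MM.Vdm

/-!
# The archimedean bound for the jet matrices

Rows are indexed by pairs (node `a`, order `j ≤ 2`), `|a| ≤ L`; the columns are the jets of
`x^i` (first block) and of `- F_a x^i` (second block).
-/

namespace Pool.Agent.H30.MM

open Finset

/-- One row of the jet matrix. -/
noncomputable def jrow (n1 n2 : ℕ) (F : ℤ → ℕ → ℝ) (a : ℤ) (j : ℕ) : Fin n1 ⊕ Fin n2 → ℝ :=
  Sum.elim (fun i => (((i : ℕ).choose j : ℕ) : ℝ) * (a : ℝ) ^ ((i : ℕ) - j))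
    (fun i => - ∑ k ∈ range (j + 1), F a (j - k) *
      ((((i : ℕ).choose k : ℕ) : ℝ) * (a : ℝ) ^ ((i : ℕ) - k)))

/-- The exponent of a pair of nodes. -/
noncomputable def gker (a b : ℤ) : ℝ := Real.log |((a : ℝ) - b)| + 1 / (2 * |((a : ℝ) - b)|)

theorem gker_self (a : ℤ) : gker a a = 0 := by simp [gker]

/-- Points near the integers `a`, `b`. -/
theorem norm_le_exp_gker (a b : ℤ) (x y : ℂ) (hx : ‖x‖ ≤ 1 / 4) (hy : ‖y‖ ≤ 1 / 4) :
    ‖((a : ℂ) + x) - ((b : ℂ) + y)‖ ≤ Real.exp (gker a b) := by
  have h1 : ‖((a : ℂ) + x) - ((b : ℂ) + y)‖ ≤ |((a : ℝ) - b)| + 1 / 2 := by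
    have e : ((a : ℂ) + x) - ((b : ℂ) + y) = (((a : ℝ) - (b : ℝ) : ℝ) : ℂ) + (x - y) := by
      push_cast; ring
    rw [e]
    refine (norm_add_le _ _).trans ?_
    rw [Complex.norm_real, Real.norm_eq_abs]
    have := norm_sub_le x y
    linarith
  by_cases hab : a = b
  · subst hab
    rw [gker_self, Real.exp_zero]
    simp only [sub_self, abs_zero, zero_add] at h1
    linarith
  · have hpos : 0 < |((a : ℝ) - b)| := by
      rw [abs_pos]
      intro h
      apply hab
      have : (a : ℝ) = b := by linarith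
      exact_mod_cast this
    rw [gker, Real.exp_add, Real.exp_log hpos]
    refine h1.trans ?_
    have h2 : 1 + 1 / (2 * |((a : ℝ) - b)|) ≤ Real.exp (1 / (2 * |((a : ℝ) - b)|)) := by
      have := Real.add_one_le_exp (1 / (2 * |((a : ℝ) - b)|))
      linarith
    have h3 : |((a : ℝ) - b)| + 1 / 2 =
        |((a : ℝ) - b)| * (1 + 1 / (2 * |((a : ℝ) - b)|)) := by
      field_simp
    rw [h3]
    exact mul_le_mul_of_nonneg_left h2 hpos.le

/-- The harmonic sum over the nodes. -/
theorem sum_inv_le (L : ℕ) (a : ℤ) (ha : a ∈ Finset.Icc (-(L : ℤ)) L) :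
    ∑ b ∈ Finset.Icc (-(L : ℤ)) L, 1 / (2 * |((a : ℝ) - b)|) ≤ 1 + Real.log (2 * L + 1) := by
  classical
  have ha' := Finset.mem_Icc.1 ha
  -- split in b < a, b = a, b > a
  have hH : ∀ n : ℕ, n ≤ 2 * L → ∑ k ∈ Finset.range n, 1 / (((k + 1 : ℕ) : ℝ)) ≤
      1 + Real.log (2 * L + 1) := by
    intro n hn
    have h1 : ∑ k ∈ Finset.range n, 1 / (((k + 1 : ℕ) : ℝ)) = ((harmonic n : ℚ) : ℝ) := by
      rw [harmonic]
      push_cast
      refine Finset.sum_congr rfl fun k _ => ?_
      rw [one_div]
    rw [h1]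
    refine (harmonic_le_one_add_log n).trans ?_
    by_cases h0 : n = 0
    · subst h0
      have : 0 ≤ Real.log (2 * (L : ℝ) + 1) := Real.log_nonneg (by
        have : (0 : ℝ) ≤ L := Nat.cast_nonneg L
        linarith)
      simp only [Nat.cast_zero, Real.log_zero]
      linarith
    · have : Real.log (n : ℝ) ≤ Real.log (2 * (L : ℝ) + 1) := by
        apply Real.log_le_log
        · exact_mod_cast Nat.pos_of_ne_zero h0
        · have : (n : ℝ) ≤ 2 * L := by exact_mod_cast hn
          linarith
      linarith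
  have hsplit : Finset.Icc (-(L : ℤ)) L = Finset.Ico (-(L : ℤ)) a ∪ ({a} ∪ Finset.Ioc a (L : ℤ)) := by
    ext b
    simp only [Finset.mem_Icc, Finset.mem_union, Finset.mem_Ico, Finset.mem_singleton,
      Finset.mem_Ioc]
    omega
  have hd1 : Disjoint (Finset.Ico (-(L : ℤ)) a) ({a} ∪ Finset.Ioc a (L : ℤ)) := by
    rw [Finset.disjoint_left]
    intro b hb hb'
    simp only [Finset.mem_union, Finset.mem_Ico, Finset.mem_singleton, Finset.mem_Ioc] at hb hb'
    omega
  have hd2 : Disjoint ({a} : Finset ℤ) (Finset.Ioc a (L : ℤ)) := by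
    rw [Finset.disjoint_left]
    intro b hb hb'
    simp only [Finset.mem_singleton, Finset.mem_Ioc] at hb hb'
    omega
  rw [hsplit, Finset.sum_union hd1, Finset.sum_union hd2, Finset.sum_singleton]
  have e0 : 1 / (2 * |((a : ℝ) - a)|) = 0 := by simp
  have e1 : ∑ b ∈ Finset.Ico (-(L : ℤ)) a, 1 / (2 * |((a : ℝ) - b)|) =
      (1 / 2) * ∑ k ∈ Finset.range (a + L).toNat, 1 / (((k + 1 : ℕ) : ℝ)) := by
    rw [Finset.mul_sum]
    symm
    refine Finset.sum_bij' (fun k _ => a - 1 - (k : ℤ)) (fun b _ => (a - 1 - b).toNat) ?_ ?_ ?_ ?_ ?_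
    · intro k hk
      have := Finset.mem_range.1 hk
      simp only [Finset.mem_Ico]
      omega
    · intro b hb
      have := Finset.mem_Ico.1 hb
      simp only [Finset.mem_range]
      omega
    · intro k hk
      omega
    · intro b hb
      have := Finset.mem_Ico.1 hb
      omega
    · intro k hk
      have : ((a : ℝ) - ((a - 1 - (k : ℤ) : ℤ) : ℝ)) = (k : ℝ) + 1 := by push_cast; ring
      rw [this, abs_of_nonneg (by positivity)]
      push_cast
      field_simp
  have e2 : ∑ b ∈ Finset.Ioc a (L : ℤ), 1 / (2 * |((a : ℝ) - b)|) =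
      (1 / 2) * ∑ k ∈ Finset.range ((L : ℤ) - a).toNat, 1 / (((k + 1 : ℕ) : ℝ)) := by
    rw [Finset.mul_sum]
    symm
    refine Finset.sum_bij' (fun k _ => a + 1 + (k : ℤ)) (fun b _ => (b - a - 1).toNat) ?_ ?_ ?_ ?_ ?_
    · intro k hk
      have := Finset.mem_range.1 hk
      simp only [Finset.mem_Ioc]
      omega
    · intro b hb
      have := Finset.mem_Ioc.1 hb
      simp only [Finset.mem_range]
      omega
    · intro k hk
      omega
    · intro b hb
      have := Finset.mem_Ioc.1 hb
      omega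
    · intro k hk
      have : ((a : ℝ) - ((a + 1 + (k : ℤ) : ℤ) : ℝ)) = -((k : ℝ) + 1) := by push_cast; ring
      rw [this, abs_neg, abs_of_nonneg (by positivity)]
      push_cast
      field_simp
  rw [e0, e1, e2]
  have b1 := hH (a + L).toNat (by omega)
  have b2 := hH ((L : ℤ) - a).toNat (by omega)
  linarith

/-- The double sum of logarithms over the nodes. -/
noncomputable def Lam (L : ℕ) : ℝ :=
  ∑ a ∈ Finset.Icc (-(L : ℤ)) L, ∑ b ∈ Finset.Icc (-(L : ℤ)) L, Real.log |((a : ℝ) - b)|

private theorem log_abs_nonneg (a b : ℤ) : 0 ≤ Real.log |((a : ℝ) - b)| := by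
  by_cases hab : a = b
  · subst hab; simp
  · apply Real.log_nonneg
    have : (1 : ℤ) ≤ |a - b| := Int.one_le_abs (sub_ne_zero.2 hab)
    exact_mod_cast this

/-- Energy of a typed configuration. -/
theorem energy_le (L : ℕ) {R : Type*} [Fintype R] [DecidableEq R] (node : R → ℤ)
    (ty : R → Bool) (hnode : ∀ r, node r ∈ Finset.Icc (-(L : ℤ)) L)
    (h3 : ∀ a, (Finset.univ.filter (fun r => node r = a)).card ≤ 3) :
    ∑ r, ∑ s, (if ty r = ty s then gker (node r) (node s) else 0) ≤
      (9 / 2) * Lam L +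
      (((Finset.univ.filter (fun r => ty r = true)).card : ℝ) -
        ((Finset.univ.filter (fun r => ty r = false)).card : ℝ)) ^ 2 / 2 * Real.log (2 * L + 1) +
      (9 / 2) * Real.log 2 * (2 * L + 1) + 9 * (2 * L + 1) * (1 + Real.log (2 * L + 1)) := by
  classical
  set S : Finset ℤ := Finset.Icc (-(L : ℤ)) L with hS
  set sg : Bool → ℤ → ℝ := fun c a =>
    ((Finset.univ.filter (fun r => node r = a ∧ ty r = c)).card : ℝ) with hsg
  -- fibre sums
  have hfib : ∀ (c : Bool) (φ : ℤ → ℝ), ∑ r, (if ty r = c then φ (node r) else 0) =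
      ∑ a ∈ S, sg c a * φ a := by
    intro c φ
    rw [← Finset.sum_fiberwise_of_maps_to (s := Finset.univ) (t := S) (g := node)
      (fun r _ => hnode r)]
    refine Finset.sum_congr rfl fun a _ => ?_
    rw [hsg]
    simp only
    rw [Finset.card_eq_sum_ones, Nat.cast_sum, Finset.sum_mul]
    rw [Finset.sum_filter, Finset.sum_filter]
    refine Finset.sum_congr rfl fun r _ => ?_
    by_cases h1 : node r = a
    · by_cases h2 : ty r = c
      · rw [if_pos h1, if_pos h2, if_pos ⟨h1, h2⟩, h1]; simp
      · rw [if_pos h1, if_neg h2, if_neg (fun h => h2 h.2)]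
    · rw [if_neg h1, if_neg (fun h => h1 h.1)]
  have hpair : ∀ r s : R, (if ty r = ty s then gker (node r) (node s) else 0) =
      (if ty r = true then (if ty s = true then gker (node r) (node s) else 0) else 0) +
      (if ty r = false then (if ty s = false then gker (node r) (node s) else 0) else 0) := by
    intro r s
    rcases hr : ty r <;> rcases hs : ty s <;> simp
  have hdouble : ∀ c : Bool, ∑ r, ∑ s,
      (if ty r = c then (if ty s = c then gker (node r) (node s) else 0) else 0) =
      ∑ a ∈ S, ∑ b ∈ S, sg c a * sg c b * gker a b := by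
    intro c
    have e1 : ∀ r, ∑ s, (if ty r = c then (if ty s = c then gker (node r) (node s) else 0) else 0)
        = if ty r = c then ∑ b ∈ S, sg c b * gker (node r) b else 0 := by
      intro r
      by_cases hr : ty r = c
      · simp only [if_pos hr]
        exact hfib c (fun b => gker (node r) b)
      · simp only [if_neg hr]
        simp
    rw [Finset.sum_congr rfl fun r _ => e1 r, hfib c (fun a => ∑ b ∈ S, sg c b * gker a b)]
    refine Finset.sum_congr rfl fun a _ => ?_
    rw [Finset.mul_sum]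
    refine Finset.sum_congr rfl fun b _ => ?_
    ring
  have hmain : ∑ r, ∑ s, (if ty r = ty s then gker (node r) (node s) else 0) =
      ∑ a ∈ S, ∑ b ∈ S, (sg true a * sg true b + sg false a * sg false b) * gker a b := by
    rw [Finset.sum_congr rfl fun r _ => Finset.sum_congr rfl fun s _ => hpair r s]
    simp only [Finset.sum_add_distrib]
    rw [hdouble true, hdouble false, ← Finset.sum_add_distrib]
    refine Finset.sum_congr rfl fun a _ => ?_
    rw [← Finset.sum_add_distrib]
    refine Finset.sum_congr rfl fun b _ => ?_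
    ring
  -- node weights
  have hs3 : ∀ a, sg true a + sg false a ≤ 3 := by
    intro a
    have : (Finset.univ.filter (fun r => node r = a ∧ ty r = true)).card +
        (Finset.univ.filter (fun r => node r = a ∧ ty r = false)).card ≤ 3 := by
      rw [← Finset.card_union_of_disjoint]
      · refine (Finset.card_le_card ?_).trans (h3 a)
        intro r hr
        simp only [Finset.mem_union, Finset.mem_filter, Finset.mem_univ, true_and] at hr ⊢
        rcases hr with h | h <;> exact h.1
      · rw [Finset.disjoint_left]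
        intro r hr hr'
        simp only [Finset.mem_filter, Finset.mem_univ, true_and] at hr hr'
        rw [hr.2] at hr'
        exact absurd hr'.2 (by decide)
    rw [hsg]
    simp only
    exact_mod_cast this
  have hs0 : ∀ c a, 0 ≤ sg c a := fun c a => Nat.cast_nonneg _
  set u : ℤ → ℝ := fun a => (sg true a - sg false a) / 2 with hu
  have hprod : ∀ a b, sg true a * sg true b + sg false a * sg false b =
      (sg true a + sg false a) * (sg true b + sg false b) / 2 + 2 * (u a * u b) := by
    intro a b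
    rw [hu]; ring
  have hss : ∀ a b, (sg true a + sg false a) * (sg true b + sg false b) ≤ 9 := by
    intro a b
    have := mul_le_mul (hs3 a) (hs3 b) (add_nonneg (hs0 true b) (hs0 false b)) (by norm_num)
    linarith
  rw [hmain]
  have hcardS : (S.card : ℝ) = 2 * L + 1 := by
    rw [hS, Int.card_Icc]
    have : ((L : ℤ) + 1 - -(L : ℤ)).toNat = 2 * L + 1 := by omega
    rw [this]; push_cast; ring
  -- the reciprocal part
  have hrec : ∑ a ∈ S, ∑ b ∈ S, (sg true a * sg true b + sg false a * sg false b) *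
      (1 / (2 * |((a : ℝ) - b)|)) ≤ 9 * (2 * L + 1) * (1 + Real.log (2 * L + 1)) := by
    calc ∑ a ∈ S, ∑ b ∈ S, (sg true a * sg true b + sg false a * sg false b) *
      (1 / (2 * |((a : ℝ) - b)|)) ≤ ∑ a ∈ S, ∑ b ∈ S, 9 * (1 / (2 * |((a : ℝ) - b)|)) := by
          refine Finset.sum_le_sum fun a _ => Finset.sum_le_sum fun b _ => ?_
          apply mul_le_mul_of_nonneg_right _ (by positivity)
          have h1 := hss a b
          have h2 : 0 ≤ sg true a * sg false b := mul_nonneg (hs0 _ _) (hs0 _ _)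
          have h4 : 0 ≤ sg false a * sg true b := mul_nonneg (hs0 _ _) (hs0 _ _)
          nlinarith
      _ ≤ ∑ a ∈ S, 9 * (1 + Real.log (2 * L + 1)) := by
          refine Finset.sum_le_sum fun a ha => ?_
          rw [← Finset.mul_sum]
          exact mul_le_mul_of_nonneg_left (sum_inv_le L a ha) (by norm_num)
      _ = 9 * (2 * L + 1) * (1 + Real.log (2 * L + 1)) := by
          rw [Finset.sum_const, nsmul_eq_mul, hcardS]; ring
  -- the logarithmic part
  have hlog1 : ∑ a ∈ S, ∑ b ∈ S, (sg true a + sg false a) * (sg true b + sg false b) / 2 *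
      Real.log |((a : ℝ) - b)| ≤ (9 / 2) * Lam L := by
    rw [Lam, Finset.mul_sum]
    refine Finset.sum_le_sum fun a _ => ?_
    rw [Finset.mul_sum]
    refine Finset.sum_le_sum fun b _ => ?_
    apply mul_le_mul_of_nonneg_right _ (log_abs_nonneg a b)
    have := hss a b
    linarith
  have hlog2 : ∑ a ∈ S, ∑ b ∈ S, u a * u b * Real.log |((a : ℝ) - b)| ≤
      (∑ a ∈ S, u a) ^ 2 * Real.log ((2 * L + 1 : ℕ) : ℝ) +
        Real.log 2 * ∑ a ∈ S, (u a) ^ 2 := by
    apply log_kernel S u (2 * L + 1) (by omega)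
    intro a ha b hb
    have h1 := Finset.mem_Icc.1 ha
    have h2 := Finset.mem_Icc.1 hb
    rw [abs_le]
    push_cast
    constructor <;> linarith [h1.1, h1.2, h2.1, h2.2]
  have husum : ∑ a ∈ S, u a = (((Finset.univ.filter (fun r => ty r = true)).card : ℝ) -
        ((Finset.univ.filter (fun r => ty r = false)).card : ℝ)) / 2 := by
    have e1 : ∀ c : Bool, ∑ a ∈ S, sg c a = ((Finset.univ.filter (fun r => ty r = c)).card : ℝ) := by
      intro c
      have := hfib c (fun _ => 1)
      simp only [mul_one] at this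
      rw [← this, Finset.card_eq_sum_ones, Nat.cast_sum, Finset.sum_filter]
      refine Finset.sum_congr rfl fun r _ => ?_
      split_ifs <;> simp
    rw [hu]
    simp only
    rw [← Finset.sum_div, Finset.sum_sub_distrib, e1, e1]
  have husq : ∑ a ∈ S, (u a) ^ 2 ≤ (9 / 4) * (2 * L + 1) := by
    calc ∑ a ∈ S, (u a) ^ 2 ≤ ∑ a ∈ S, (9 / 4 : ℝ) := by
          refine Finset.sum_le_sum fun a _ => ?_
          rw [hu]
          simp only
          have h1 := hs3 a
          have h2 := hs0 true a
          have h4 := hs0 false a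
          have h5 : |sg true a - sg false a| ≤ 3 := by
            rw [abs_le]; constructor <;> linarith
          have h6 : (sg true a - sg false a) ^ 2 ≤ 9 := by
            rw [← sq_abs]
            nlinarith [abs_nonneg (sg true a - sg false a)]
          rw [div_pow]
          linarith
      _ = (9 / 4) * (2 * L + 1) := by
          rw [Finset.sum_const, nsmul_eq_mul, hcardS]; ring
  have hexp : ∑ a ∈ S, ∑ b ∈ S, (sg true a * sg true b + sg false a * sg false b) * gker a b =
      ∑ a ∈ S, ∑ b ∈ S, (sg true a + sg false a) * (sg true b + sg false b) / 2 *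
        Real.log |((a : ℝ) - b)| +
      2 * ∑ a ∈ S, ∑ b ∈ S, u a * u b * Real.log |((a : ℝ) - b)| +
      ∑ a ∈ S, ∑ b ∈ S, (sg true a * sg true b + sg false a * sg false b) *
        (1 / (2 * |((a : ℝ) - b)|)) := by
    rw [Finset.mul_sum, ← Finset.sum_add_distrib, ← Finset.sum_add_distrib]
    refine Finset.sum_congr rfl fun a _ => ?_
    rw [Finset.mul_sum, ← Finset.sum_add_distrib, ← Finset.sum_add_distrib]
    refine Finset.sum_congr rfl fun b _ => ?_
    rw [gker, mul_add, hprod]
    ring
  rw [hexp]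
  have hl2 : 0 ≤ Real.log 2 := Real.log_nonneg (by norm_num)
  have hA : 2 * ∑ a ∈ S, ∑ b ∈ S, u a * u b * Real.log |((a : ℝ) - b)| ≤
      (((Finset.univ.filter (fun r => ty r = true)).card : ℝ) -
        ((Finset.univ.filter (fun r => ty r = false)).card : ℝ)) ^ 2 / 2 * Real.log (2 * L + 1) +
      (9 / 2) * Real.log 2 * (2 * L + 1) := by
    have e : Real.log ((2 * L + 1 : ℕ) : ℝ) = Real.log (2 * L + 1) := by push_cast; rfl
    rw [e, husum] at hlog2
    have h7 : Real.log 2 * ∑ a ∈ S, (u a) ^ 2 ≤ Real.log 2 * ((9 / 4) * (2 * L + 1)) :=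
      mul_le_mul_of_nonneg_left husq hl2
    nlinarith
  linarith

end Pool.Agent.H30.MM
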