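import Mathlib
import Pool.Agent.H30.MM.Inf

/-!
# The archimedean bound: conclusion
-/

namespace Pool.Agent.H30.MM

open Finset

/-- The determinant of a typed configuration near integer nodes. -/
theorem norm_det_near (n1 n2 L : ℕ) (node : Fin n1 ⊕ Fin n2 → ℤ)
    (hnode : ∀ r, node r ∈ Finset.Icc (-(L : ℤ)) L)
    (h3 : ∀ a, (Finset.univ.filter (fun r => node r = a)).card ≤ 3)
    (ty : Fin n1 ⊕ Fin n2 → Bool) (x : Fin n1 ⊕ Fin n2 → ℂ) (hx : ∀ r, ‖x r‖ ≤ 1 / 4) :
    ‖(Matrix.of fun r => trow n1 n2 (ty r) ((node r : ℂ) + x r)).det‖ ≤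
      Real.exp ((9 / 4) * Lam L + ((n1 : ℝ) - n2) ^ 2 / 4 * Real.log (2 * L + 1) +
      (9 / 4) * Real.log 2 * (2 * L + 1) + (9 / 2) * (2 * L + 1) * (1 + Real.log (2 * L + 1))) := by
  classical
  set X : ℝ := (9 / 4) * Lam L + ((n1 : ℝ) - n2) ^ 2 / 4 * Real.log (2 * L + 1) +
      (9 / 4) * Real.log 2 * (2 * L + 1) + (9 / 2) * (2 * L + 1) * (1 + Real.log (2 * L + 1))
    with hX
  have hsq := norm_det_trow_sq n1 n2 ty (fun r => (node r : ℂ) + x r)
  have hexp2 : Real.exp X ^ 2 = Real.exp (2 * X) := by
    rw [← Real.exp_nat_mul]; norm_num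
  apply le_of_sq_le_sq _ (Real.exp_nonneg X)
  rw [hexp2]
  refine hsq.trans ?_
  by_cases hc : (Finset.univ.filter (fun r => ty r = true)).card = n1
  · rw [if_pos hc]
    have hcB : (Finset.univ.filter (fun r => ty r = false)).card = n2 := by
      have h1 := Finset.card_filter_add_card_filter_not (s := (Finset.univ : Finset (Fin n1 ⊕ Fin n2)))
        (fun r => ty r = true)
      have h2 : (Finset.univ.filter (fun r => ¬ ty r = true)) =
          Finset.univ.filter (fun r => ty r = false) := by
        ext r; simp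
      rw [h2, hc] at h1
      simp at h1
      omega
    have hE := energy_le L node ty hnode h3
    rw [hc, hcB] at hE
    have h1 : (∏ r, ∏ s, if r ≠ s ∧ ty r = ty s then
        ‖((node r : ℂ) + x r) - ((node s : ℂ) + x s)‖ else (1 : ℝ)) ≤
        ∏ r, ∏ s, Real.exp (if ty r = ty s then gker (node r) (node s) else 0) := by
      refine Finset.prod_le_prod (fun r _ => Finset.prod_nonneg fun s _ => ?_) fun r _ => ?_
      · split_ifs
        · exact norm_nonneg _
        · exact zero_le_one
      · refine Finset.prod_le_prod (fun s _ => ?_) fun s _ => ?_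
        · split_ifs
          · exact norm_nonneg _
          · exact zero_le_one
        · by_cases hts : ty r = ty s
          · by_cases hrs : r = s
            · subst hrs
              rw [if_neg (fun h => h.1 rfl), if_pos rfl, gker_self, Real.exp_zero]
            · rw [if_pos ⟨hrs, hts⟩, if_pos hts]
              exact norm_le_exp_gker _ _ _ _ (hx r) (hx s)
          · rw [if_neg (fun h => hts h.2), if_neg hts, Real.exp_zero]
    refine h1.trans ?_
    simp only [← Real.exp_sum]
    apply Real.exp_le_exp.2
    refine hE.trans (le_of_eq ?_)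
    rw [hX]; ring
  · rw [if_neg hc]
    exact Real.exp_nonneg _

/-- **The archimedean bound.** -/
theorem jet_det_le (n1 n2 L : ℕ) (F : ℤ → ℕ → ℝ) (C0 : ℝ)
    (hF : ∀ a ∈ Finset.Icc (-(L : ℤ)) L, ∀ k ≤ 2, |F a k| ≤ C0)
    (node : Fin n1 ⊕ Fin n2 → ℤ) (ord : Fin n1 ⊕ Fin n2 → ℕ)
    (hinj : Function.Injective (fun r => (node r, ord r)))
    (hnode : ∀ r, node r ∈ Finset.Icc (-(L : ℤ)) L) (hord : ∀ r, ord r ≤ 2) :
    |(Matrix.of fun r => jrow n1 n2 F (node r) (ord r)).det| ≤
      (16 + 21 * C0) ^ (n1 + n2) *
      Real.exp ((9 / 4) * Lam L + ((n1 : ℝ) - n2) ^ 2 / 4 * Real.log (2 * L + 1) +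
      (9 / 4) * Real.log 2 * (2 * L + 1) + (9 / 2) * (2 * L + 1) * (1 + Real.log (2 * L + 1))) := by
  classical
  set M : ℕ := n1 + n2 + 3 with hM
  have hM0 : (0 : ℝ) < M := by
    have : 0 < M := by omega
    exact_mod_cast this
  -- at most three rows per node
  have h3 : ∀ a, (Finset.univ.filter (fun r => node r = a)).card ≤ 3 := by
    intro a
    have h1 : (Finset.univ.filter (fun r => node r = a)).card ≤ (Finset.range 3).card := by
      apply Finset.card_le_card_of_injOn ord
      · intro r _
        have := hord r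
        simp only [Finset.coe_range, Set.mem_Iio]
        omega
      · intro r hr s hs hrs
        apply hinj
        have e1 : node r = a := by simpa using hr
        have e2 : node s = a := by simpa using hs
        exact Prod.ext (e1.trans e2.symm) hrs
    simpa using h1
  -- coefficients and vectors
  let c : (Fin n1 ⊕ Fin n2) → (Bool × Fin M) → ℂ := fun r s =>
    if s.1 then dftc M (ord r) s.2 else
      - ∑ k ∈ range (ord r + 1), (F (node r) (ord r - k) : ℂ) * dftc M k s.2
  let V : (Fin n1 ⊕ Fin n2) → (Bool × Fin M) → (Fin n1 ⊕ Fin n2) → ℂ := fun r s =>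
    trow n1 n2 s.1 ((node r : ℂ) + dftz M s.2)
  have hV : ∀ f : (Fin n1 ⊕ Fin n2) → (Bool × Fin M),
      ‖(Matrix.of fun r => V r (f r)).det‖ ≤
      Real.exp ((9 / 4) * Lam L + ((n1 : ℝ) - n2) ^ 2 / 4 * Real.log (2 * L + 1) +
      (9 / 4) * Real.log 2 * (2 * L + 1) +
        (9 / 2) * (2 * L + 1) * (1 + Real.log (2 * L + 1))) := by
    intro f
    exact norm_det_near n1 n2 L node hnode h3 (fun r => (f r).1) (fun r => dftz M (f r).2)
      (fun r => le_of_eq (norm_dftz M _))
  have hdet := det_sum_rows c V _ hV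
  -- the row identity
  have hrow : ∀ r k, ∑ s, c r s * V r s k = ((jrow n1 n2 F (node r) (ord r) k : ℝ) : ℂ) := by
    intro r k
    rw [Fintype.sum_prod_type, Fintype.sum_bool]
    rcases k with i | i
    · have h0 : ∑ w : Fin M, c r (false, w) * V r (false, w) (Sum.inl i) = 0 := by
        apply Finset.sum_eq_zero
        intro w _
        simp [V, trow]
      rw [h0, add_zero]
      have hi : (i : ℕ) < M := by have := i.2; omega
      have hj : ord r < M := by have := hord r; omega
      have h1 := dft_monomial M i (ord r) hi hj (node r : ℂ)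
      have h2 : ∑ w : Fin M, c r (true, w) * V r (true, w) (Sum.inl i) =
          ∑ w ∈ range M, dftc M (ord r) w * ((node r : ℂ) + dftz M w) ^ (i : ℕ) := by
        rw [← Fin.sum_univ_eq_sum_range (fun w => dftc M (ord r) w *
          ((node r : ℂ) + dftz M w) ^ (i : ℕ)) M]
        refine Finset.sum_congr rfl fun w _ => ?_
        simp [c, V, trow]
      rw [h2, ← h1]
      simp [jrow]
    · have h0 : ∑ w : Fin M, c r (true, w) * V r (true, w) (Sum.inr i) = 0 := by
        apply Finset.sum_eq_zero
        intro w _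
        simp [V, trow]
      rw [h0, zero_add]
      have hi : (i : ℕ) < M := by have := i.2; omega
      have h2 : ∑ w : Fin M, c r (false, w) * V r (false, w) (Sum.inr i) =
          - ∑ k ∈ range (ord r + 1), (F (node r) (ord r - k) : ℂ) *
            ∑ w ∈ range M, dftc M k w * ((node r : ℂ) + dftz M w) ^ (i : ℕ) := by
        have e1 : ∀ w : Fin M, c r (false, w) * V r (false, w) (Sum.inr i) =
            - ∑ k ∈ range (ord r + 1), (F (node r) (ord r - k) : ℂ) *
              (dftc M k w * ((node r : ℂ) + dftz M w) ^ (i : ℕ)) := by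
          intro w
          simp only [c, V, trow, Sum.elim_inr, Bool.false_eq_true, if_false, neg_mul]
          rw [Finset.sum_mul]
          congr 1
          refine Finset.sum_congr rfl fun k _ => ?_
          ring
        rw [Finset.sum_congr rfl fun w _ => e1 w, Finset.sum_neg_distrib, Finset.sum_comm]
        congr 1
        refine Finset.sum_congr rfl fun k _ => ?_
        rw [← Finset.mul_sum]
        congr 1
        rw [← Fin.sum_univ_eq_sum_range (fun w => dftc M k w *
          ((node r : ℂ) + dftz M w) ^ (i : ℕ)) M]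
      rw [h2]
      have e3 : ∀ k ∈ range (ord r + 1), (F (node r) (ord r - k) : ℂ) *
            ∑ w ∈ range M, dftc M k w * ((node r : ℂ) + dftz M w) ^ (i : ℕ) =
          (F (node r) (ord r - k) : ℂ) * ((((i : ℕ).choose k : ℕ) : ℂ) *
            (node r : ℂ) ^ ((i : ℕ) - k)) := by
        intro k hk
        have hk' : k < M := by
          have := Finset.mem_range.1 hk
          have := hord r
          omega
        rw [dft_monomial M i k hi hk' (node r : ℂ)]
      rw [Finset.sum_congr rfl e3]
      simp [jrow]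
  have hmat : (Matrix.of fun r k => ∑ s, c r s * V r s k) =
      (Matrix.of fun r => jrow n1 n2 F (node r) (ord r)).map (algebraMap ℝ ℂ) := by
    ext r k
    rw [Matrix.map_apply, Matrix.of_apply, Matrix.of_apply, hrow]
    rfl
  rw [hmat] at hdet
  have hdet2 : ‖((Matrix.of fun r => jrow n1 n2 F (node r) (ord r)).map (algebraMap ℝ ℂ)).det‖ =
      |(Matrix.of fun r => jrow n1 n2 F (node r) (ord r)).det| := by
    have := RingHom.map_det (algebraMap ℝ ℂ) (Matrix.of fun r => jrow n1 n2 F (node r) (ord r))
    rw [RingHom.mapMatrix_apply] at this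
    rw [← this, Complex.coe_algebraMap, Complex.norm_real, Real.norm_eq_abs]
  rw [hdet2] at hdet
  refine hdet.trans ?_
  apply mul_le_mul_of_nonneg_right _ (Real.exp_nonneg _)
  -- the coefficient sums
  have hcs : ∀ r, ∑ s, ‖c r s‖ ≤ 16 + 21 * C0 := by
    intro r
    have hC0 : 0 ≤ C0 := (abs_nonneg _).trans (hF (node r) (hnode r) 0 (by norm_num))
    have hpow : ∀ k, k ≤ 2 → (4 : ℝ) ^ k ≤ 16 := by
      intro k hk
      calc (4 : ℝ) ^ k ≤ 4 ^ 2 := pow_le_pow_right₀ (by norm_num) hk
        _ = 16 := by norm_num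
    rw [Fintype.sum_prod_type, Fintype.sum_bool]
    have h1 : ∑ w : Fin M, ‖c r (true, w)‖ ≤ 16 := by
      have : ∀ w : Fin M, ‖c r (true, w)‖ = (4 : ℝ) ^ (ord r) / M := by
        intro w
        simp only [c, if_true]
        exact norm_dftc M _ _
      rw [Finset.sum_congr rfl fun w _ => this w, Finset.sum_const, Finset.card_univ,
        Fintype.card_fin, nsmul_eq_mul, mul_div_cancel₀ _ hM0.ne']
      exact hpow _ (hord r)
    have h2 : ∑ w : Fin M, ‖c r (false, w)‖ ≤ 21 * C0 := by
      have h3 : ∀ w : Fin M, ‖c r (false, w)‖ ≤ 21 * C0 / M := by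
        intro w
        simp only [c, Bool.false_eq_true, if_false, norm_neg]
        refine (norm_sum_le _ _).trans ?_
        have h4 : ∀ k ∈ range (ord r + 1), ‖(F (node r) (ord r - k) : ℂ) * dftc M k w‖ ≤
            C0 * ((4 : ℝ) ^ k / M) := by
          intro k hk
          rw [norm_mul, norm_dftc, Complex.norm_real, Real.norm_eq_abs]
          apply mul_le_mul_of_nonneg_right _ (by positivity)
          exact hF _ (hnode r) _ (by have := hord r; omega)
        refine (Finset.sum_le_sum h4).trans ?_
        have h5 : ∑ k ∈ range (ord r + 1), C0 * ((4 : ℝ) ^ k / M) ≤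
            ∑ k ∈ range 3, C0 * ((4 : ℝ) ^ k / M) := by
          apply Finset.sum_le_sum_of_subset_of_nonneg
          · intro k hk
            have := Finset.mem_range.1 hk
            have := hord r
            exact Finset.mem_range.2 (by omega)
          · intro k _ _
            positivity
        refine h5.trans (le_of_eq ?_)
        simp only [Finset.sum_range_succ, Finset.sum_range_zero]
        ring
      refine (Finset.sum_le_sum fun w _ => h3 w).trans (le_of_eq ?_)
      rw [Finset.sum_const, Finset.card_univ, Fintype.card_fin, nsmul_eq_mul,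
        mul_div_cancel₀ _ hM0.ne']
    linarith
  calc ∏ r, ∑ s, ‖c r s‖ ≤ ∏ _r : Fin n1 ⊕ Fin n2, (16 + 21 * C0) :=
        Finset.prod_le_prod (fun r _ => Finset.sum_nonneg fun s _ => norm_nonneg _)
          fun r _ => hcs r
    _ = (16 + 21 * C0) ^ (n1 + n2) := by
        rw [Finset.prod_const, Finset.card_univ, Fintype.card_sum, Fintype.card_fin,
          Fintype.card_fin]

end Pool.Agent.H30.MM
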