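import Mathlib
import Pool.Agent.H30.MM.Inf2

/-!
# The double sum of logarithms and the final form of the archimedean bound
-/

namespace Pool.Agent.H30.MM

open Finset

theorem log_factorial_eq (n : ℕ) : Real.log (n.factorial : ℝ) =
    ∑ k ∈ range n, Real.log ((k : ℝ) + 1) := by
  induction n with
  | zero => simp
  | succ n ih =>
    rw [Finset.sum_range_succ, ← ih, Nat.factorial_succ]
    push_cast
    rw [Real.log_mul (by positivity) (by exact_mod_cast n.factorial_ne_zero)]
    ring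

/-- The double sum is twice the sum of the logarithms of the factorials. -/
theorem Lam_eq (L : ℕ) : Lam L = 2 * ∑ i ∈ range (2 * L + 1), Real.log (i.factorial : ℝ) := by
  classical
  have hrow : ∀ a ∈ Finset.Icc (-(L : ℤ)) L,
      ∑ b ∈ Finset.Icc (-(L : ℤ)) L, Real.log |((a : ℝ) - b)| =
        Real.log (((a + L).toNat.factorial : ℕ) : ℝ) +
          Real.log ((((L : ℤ) - a).toNat.factorial : ℕ) : ℝ) := by
    intro a ha
    have ha' := Finset.mem_Icc.1 ha
    have hsplit : Finset.Icc (-(L : ℤ)) L =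
        Finset.Ico (-(L : ℤ)) a ∪ ({a} ∪ Finset.Ioc a (L : ℤ)) := by
      ext b
      simp only [Finset.mem_Icc, Finset.mem_union, Finset.mem_Ico, Finset.mem_singleton,
        Finset.mem_Ioc]
      omega
    have hd1 : Disjoint (Finset.Ico (-(L : ℤ)) a) ({a} ∪ Finset.Ioc a (L : ℤ)) := by
      rw [Finset.disjoint_left]
      intro b hb hb'
      simp only [Finset.mem_union, Finset.mem_Ico, Finset.mem_singleton, Finset.mem_Ioc] at hb hb'
      omega
    have hd2 : Disjoint ({a} : Finset ℤ) (Finset.Ioc a (L : ℤ)) := by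
      rw [Finset.disjoint_left]
      intro b hb hb'
      simp only [Finset.mem_singleton, Finset.mem_Ioc] at hb hb'
      omega
    rw [hsplit, Finset.sum_union hd1, Finset.sum_union hd2, Finset.sum_singleton]
    have e0 : Real.log |((a : ℝ) - a)| = 0 := by simp
    have e1 : ∑ b ∈ Finset.Ico (-(L : ℤ)) a, Real.log |((a : ℝ) - b)| =
        Real.log (((a + L).toNat.factorial : ℕ) : ℝ) := by
      rw [log_factorial_eq]
      symm
      refine Finset.sum_bij' (fun k _ => a - 1 - (k : ℤ)) (fun b _ => (a - 1 - b).toNat)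
        ?_ ?_ ?_ ?_ ?_
      · intro k hk
        have := Finset.mem_range.1 hk
        simp only [Finset.mem_Ico]
        omega
      · intro b hb
        have := Finset.mem_Ico.1 hb
        simp only [Finset.mem_range]
        omega
      · intro k hk
        omega
      · intro b hb
        have := Finset.mem_Ico.1 hb
        omega
      · intro k hk
        have : ((a : ℝ) - ((a - 1 - (k : ℤ) : ℤ) : ℝ)) = (k : ℝ) + 1 := by push_cast; ring
        rw [this, abs_of_nonneg (by positivity)]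
    have e2 : ∑ b ∈ Finset.Ioc a (L : ℤ), Real.log |((a : ℝ) - b)| =
        Real.log ((((L : ℤ) - a).toNat.factorial : ℕ) : ℝ) := by
      rw [log_factorial_eq]
      symm
      refine Finset.sum_bij' (fun k _ => a + 1 + (k : ℤ)) (fun b _ => (b - a - 1).toNat)
        ?_ ?_ ?_ ?_ ?_
      · intro k hk
        have := Finset.mem_range.1 hk
        simp only [Finset.mem_Ioc]
        omega
      · intro b hb
        have := Finset.mem_Ioc.1 hb
        simp only [Finset.mem_range]
        omega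
      · intro k hk
        omega
      · intro b hb
        have := Finset.mem_Ioc.1 hb
        omega
      · intro k hk
        have : ((a : ℝ) - ((a + 1 + (k : ℤ) : ℤ) : ℝ)) = -((k : ℝ) + 1) := by push_cast; ring
        rw [this, abs_neg, abs_of_nonneg (by positivity)]
    rw [e0, e1, e2]
    ring
  rw [Lam, Finset.sum_congr rfl hrow, Finset.sum_add_distrib]
  have f1 : ∑ a ∈ Finset.Icc (-(L : ℤ)) L, Real.log (((a + L).toNat.factorial : ℕ) : ℝ) =
      ∑ i ∈ range (2 * L + 1), Real.log (i.factorial : ℝ) := by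
    symm
    refine Finset.sum_bij' (fun k _ => (k : ℤ) - L) (fun a _ => (a + L).toNat) ?_ ?_ ?_ ?_ ?_
    · intro k hk
      have := Finset.mem_range.1 hk
      simp only [Finset.mem_Icc]
      omega
    · intro a ha
      have := Finset.mem_Icc.1 ha
      simp only [Finset.mem_range]
      omega
    · intro k hk
      omega
    · intro a ha
      have := Finset.mem_Icc.1 ha
      omega
    · intro k hk
      have : ((k : ℤ) - L + L).toNat = k := by omega
      rw [this]
  have f2 : ∑ a ∈ Finset.Icc (-(L : ℤ)) L, Real.log ((((L : ℤ) - a).toNat.factorial : ℕ) : ℝ) =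
      ∑ i ∈ range (2 * L + 1), Real.log (i.factorial : ℝ) := by
    symm
    refine Finset.sum_bij' (fun k _ => (L : ℤ) - k) (fun a _ => ((L : ℤ) - a).toNat) ?_ ?_ ?_ ?_ ?_
    · intro k hk
      have := Finset.mem_range.1 hk
      simp only [Finset.mem_Icc]
      omega
    · intro a ha
      have := Finset.mem_Icc.1 ha
      simp only [Finset.mem_range]
      omega
    · intro k hk
      omega
    · intro a ha
      have := Finset.mem_Icc.1 ha
      omega
    · intro k hk
      have : ((L : ℤ) - ((L : ℤ) - (k : ℤ))).toNat = k := by omega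
      rw [this]
  rw [f1, f2]
  ring

/-- `log (n - 1) ≤ log n - 1 / n`. -/
private theorem log_pred_le (n : ℕ) (hn : 1 ≤ n) :
    Real.log (n : ℝ) ≤ Real.log ((n : ℝ) + 1) - 1 / ((n : ℝ) + 1) := by
  have hn' : (0 : ℝ) < n := by exact_mod_cast hn
  have h1 : Real.log ((n : ℝ) / ((n : ℝ) + 1)) ≤ (n : ℝ) / ((n : ℝ) + 1) - 1 :=
    Real.log_le_sub_one_of_pos (by positivity)
  rw [Real.log_div hn'.ne' (by positivity)] at h1
  have h2 : (n : ℝ) / ((n : ℝ) + 1) - 1 = - (1 / ((n : ℝ) + 1)) := by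
    field_simp
    ring
  rw [h2] at h1
  linarith

/-- Upper bound for `∑ j log j`. -/
theorem sum_mul_log_le (n : ℕ) :
    ∑ j ∈ range (n + 1), ((j : ℝ) + 1) * Real.log ((j : ℝ) + 1) ≤
      ((n : ℝ) + 1) ^ 2 / 2 * Real.log ((n : ℝ) + 1) - ((n : ℝ) + 1) ^ 2 / 4 +
        ((n : ℝ) + 1) * Real.log ((n : ℝ) + 1) + 1 / 4 := by
  induction n with
  | zero => simp
  | succ n ih =>
    rw [Finset.sum_range_succ]
    have hlog := log_pred_le (n + 1) (by omega)
    push_cast at hlog ⊢
    set x : ℝ := (n : ℝ) + 1 with hx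
    have hx1 : 1 ≤ x := by
      have : (0 : ℝ) ≤ n := Nat.cast_nonneg n
      linarith
    set l1 : ℝ := Real.log x with hl1
    set l2 : ℝ := Real.log (x + 1) with hl2
    have hl0 : 0 ≤ l2 := Real.log_nonneg (by linarith)
    -- coefficient of the smaller logarithm
    have hc : 0 ≤ x ^ 2 / 2 + x := by positivity
    have h1 : (x ^ 2 / 2 + x) * l1 ≤ (x ^ 2 / 2 + x) * (l2 - 1 / (x + 1)) :=
      mul_le_mul_of_nonneg_left hlog hc
    have h2 : (x ^ 2 / 2 + x) * (1 / (x + 1)) = ((x + 1) - 1 / (x + 1)) / 2 := by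
      field_simp
      ring
    have h3 : 1 / (x + 1) ≤ 1 / 2 := by
      apply one_div_le_one_div_of_le (by norm_num) (by linarith)
    have h4 : (x ^ 2 / 2 + x) * (l2 - 1 / (x + 1)) =
        (x ^ 2 / 2 + x) * l2 - ((x + 1) - 1 / (x + 1)) / 2 := by
      rw [mul_sub, h2]
    rw [h4] at h1
    nlinarith

/-- Upper bound for the logarithm of a factorial. -/
theorem log_factorial_le (i : ℕ) :
    Real.log (i.factorial : ℝ) ≤ ((i : ℝ) + 1) * Real.log ((i : ℝ) + 1) - i := by
  induction i with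
  | zero => simp
  | succ n ih =>
    rw [Nat.factorial_succ]
    push_cast
    rw [Real.log_mul (by positivity) (by exact_mod_cast n.factorial_ne_zero)]
    have hlog := log_pred_le (n + 1) (by omega)
    push_cast at hlog
    set x : ℝ := (n : ℝ) + 1 with hx
    have hx1 : 1 ≤ x := by
      have : (0 : ℝ) ≤ n := Nat.cast_nonneg n
      linarith
    have h1 : (x + 1) * Real.log x ≤ (x + 1) * (Real.log (x + 1) - 1 / (x + 1)) :=
      mul_le_mul_of_nonneg_left hlog (by linarith)
    have h2 : (x + 1) * (Real.log (x + 1) - 1 / (x + 1)) = (x + 1) * Real.log (x + 1) - 1 := by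
      field_simp
    rw [h2] at h1
    have : (n : ℝ) = x - 1 := by rw [hx]; ring
    linarith

/-- Upper bound for the sum of the logarithms of the factorials. -/
theorem sum_log_factorial_le (n : ℕ) :
    ∑ i ∈ range (n + 1), Real.log (i.factorial : ℝ) ≤
      ((n : ℝ) + 1) ^ 2 / 2 * (Real.log ((n : ℝ) + 1) - 3 / 2) +
        ((n : ℝ) + 1) * Real.log ((n : ℝ) + 1) + ((n : ℝ) + 1) / 2 + 1 / 4 := by
  have h1 : ∑ i ∈ range (n + 1), Real.log (i.factorial : ℝ) ≤
      ∑ i ∈ range (n + 1), (((i : ℝ) + 1) * Real.log ((i : ℝ) + 1) - i) :=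
    Finset.sum_le_sum fun i _ => log_factorial_le i
  rw [Finset.sum_sub_distrib] at h1
  have h2 : ∑ i ∈ range (n + 1), (i : ℝ) = ((n : ℝ) + 1) * n / 2 := by
    have := Finset.sum_range_id_mul_two (n + 1)
    have h3 : ((∑ i ∈ range (n + 1), i : ℕ) : ℝ) * 2 = ((n + 1 : ℕ) : ℝ) * ((n + 1 - 1 : ℕ) : ℝ) := by
      exact_mod_cast this
    rw [Nat.add_sub_cancel] at h3
    push_cast at h3
    linarith
  rw [h2] at h1
  have h4 := sum_mul_log_le n
  have h5 : ((n : ℝ) + 1) ^ 2 / 2 * (Real.log ((n : ℝ) + 1) - 3 / 2) +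
        ((n : ℝ) + 1) * Real.log ((n : ℝ) + 1) + ((n : ℝ) + 1) / 2 + 1 / 4 =
      (((n : ℝ) + 1) ^ 2 / 2 * Real.log ((n : ℝ) + 1) - ((n : ℝ) + 1) ^ 2 / 4 +
        ((n : ℝ) + 1) * Real.log ((n : ℝ) + 1) + 1 / 4) - ((n : ℝ) + 1) * n / 2 := by
    ring
  rw [h5]
  linarith

/-- **Logarithmic form of the archimedean bound.** -/
theorem log_jet_det_le (n1 n2 L : ℕ) (F : ℤ → ℕ → ℝ) (C0 : ℝ) (h0 : 0 ≤ C0)
    (hF : ∀ a ∈ Finset.Icc (-(L : ℤ)) L, ∀ k ≤ 2, |F a k| ≤ C0)
    (hn : n1 + n2 ≤ 3 * (2 * L + 1)) (h12 : n1 ≤ n2 + 2) (h21 : n2 ≤ n1 + 2)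
    (node : Fin n1 ⊕ Fin n2 → ℤ) (ord : Fin n1 ⊕ Fin n2 → ℕ)
    (hinj : Function.Injective (fun r => (node r, ord r)))
    (hnode : ∀ r, node r ∈ Finset.Icc (-(L : ℤ)) L) (hord : ∀ r, ord r ≤ 2)
    (hdet : (Matrix.of fun r => jrow n1 n2 F (node r) (ord r)).det ≠ 0) (m : ℝ)
    (hm : m = 2 * L + 1) :
    Real.log |(Matrix.of fun r => jrow n1 n2 F (node r) (ord r)).det| ≤
      (9 / 4) * m ^ 2 * (Real.log m - 3 / 2) + 10 * m * (1 + Real.log m) +
        3 * m * Real.log (16 + 21 * C0) := by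
  have hb := jet_det_le n1 n2 L F C0 hF node ord hinj hnode hord
  have hpos : 0 < |(Matrix.of fun r => jrow n1 n2 F (node r) (ord r)).det| := abs_pos.2 hdet
  have hlog := Real.log_le_log hpos hb
  have hC : 0 < 16 + 21 * C0 := by linarith
  rw [Real.log_mul (pow_ne_zero _ hC.ne') (Real.exp_ne_zero _), Real.log_exp, Real.log_pow]
    at hlog
  have hlC : 0 ≤ Real.log (16 + 21 * C0) := Real.log_nonneg (by linarith)
  have hLam : Lam L ≤ m ^ 2 * (Real.log m - 3 / 2) + 2 * m * Real.log m + m + 1 / 2 := by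
    rw [Lam_eq]
    have := sum_log_factorial_le (2 * L)
    push_cast at this
    rw [← hm] at this
    linarith
  have hm1 : 1 ≤ m := by
    rw [hm]
    have : (0 : ℝ) ≤ L := Nat.cast_nonneg L
    linarith
  have hlm : 0 ≤ Real.log m := Real.log_nonneg hm1
  rw [← hm] at hlog
  have hN : ((n1 + n2 : ℕ) : ℝ) * Real.log (16 + 21 * C0) ≤ 3 * m * Real.log (16 + 21 * C0) := by
    apply mul_le_mul_of_nonneg_right _ hlC
    have : ((n1 + n2 : ℕ) : ℝ) ≤ ((3 * (2 * L + 1) : ℕ) : ℝ) := by exact_mod_cast hn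
    push_cast at this ⊢
    rw [hm]; linarith
  have hd : ((n1 : ℝ) - n2) ^ 2 / 4 * Real.log m ≤ m * Real.log m := by
    apply mul_le_mul_of_nonneg_right _ hlm
    have e1 : (n1 : ℝ) ≤ n2 + 2 := by exact_mod_cast h12
    have e2 : (n2 : ℝ) ≤ n1 + 2 := by exact_mod_cast h21
    have : ((n1 : ℝ) - n2) ^ 2 ≤ 4 := by nlinarith
    linarith
  have hlog2 : Real.log 2 ≤ 3 / 4 := by
    have := Real.log_two_lt_d9
    linarith
  have hl2 : (9 / 4) * Real.log 2 * m ≤ (9 / 4) * (3 / 4) * m := by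
    apply mul_le_mul_of_nonneg_right _ (by linarith)
    linarith
  nlinarith

end Pool.Agent.H30.MM
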