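import Mathlib

/-!
# Polynomial bound for the jets of the function with `F (t + 1) F (t) = (3 t + 2) / (3 t + 1)`
-/

namespace Pool.Agent.H30.MM

/-- A chain of jets: `f (n+1) * f n = s n` modulo cubes, with values in `[1/2, 2]`. -/
theorem chain_bound (f s : ℕ → ℕ → ℝ) (h00 : f 0 0 = 1) (h01 : f 0 1 = 0) (h02 : f 0 2 = 0)
    (hr0 : ∀ n, f (n + 1) 0 * f n 0 = s n 0)
    (hr1 : ∀ n, f (n + 1) 1 * f n 0 + f (n + 1) 0 * f n 1 = s n 1)
    (hr2 : ∀ n, f (n + 1) 2 * f n 0 + f (n + 1) 1 * f n 1 + f (n + 1) 0 * f n 2 = s n 2)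
    (hlo : ∀ n, 1 / 2 ≤ f n 0) (hhi : ∀ n, f n 0 ≤ 2)
    (hs1 : ∀ n, |s n 1| ≤ 3 / 2 * s n 0) (hs2 : ∀ n, |s n 2| ≤ 9 / 2 * s n 0)
    (n : ℕ) (k : ℕ) (hk : k ≤ 2) : |f n k| ≤ 15 * ((n : ℝ) + 1) ^ 2 := by
  have hpos : ∀ n, 0 < f n 0 := fun n => lt_of_lt_of_le (by norm_num) (hlo n)
  have hspos : ∀ n, 0 < s n 0 := fun n => by rw [← hr0 n]; exact mul_pos (hpos _) (hpos _)
  set A : ℕ → ℝ := fun n => f n 1 / f n 0 with hA
  set B : ℕ → ℝ := fun n => f n 2 / f n 0 - (f n 1 / f n 0) ^ 2 / 2 with hB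
  -- the two recursions
  have hAr : ∀ n, A (n + 1) = s n 1 / s n 0 - A n := by
    intro n
    have h1 := (hpos n).ne'
    have h2 := (hpos (n + 1)).ne'
    simp only [hA]
    rw [← hr0 n, ← hr1 n]
    field_simp
    ring
  have hBr : ∀ n, B (n + 1) = s n 2 / s n 0 - (s n 1 / s n 0) ^ 2 / 2 - B n := by
    intro n
    have h1 := (hpos n).ne'
    have h2 := (hpos (n + 1)).ne'
    simp only [hB]
    rw [← hr0 n, ← hr1 n, ← hr2 n]
    field_simp
    ring
  have ha : ∀ n, |A n| ≤ 3 / 2 * n := by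
    intro n
    induction n with
    | zero => simp [hA, h01]
    | succ n ih =>
      rw [hAr]
      refine (abs_sub _ _).trans ?_
      have : |s n 1 / s n 0| ≤ 3 / 2 := by
        rw [abs_div, abs_of_pos (hspos n), div_le_iff₀ (hspos n)]
        exact hs1 n
      push_cast
      linarith
  have hb : ∀ n, |B n| ≤ 6 * n := by
    intro n
    induction n with
    | zero => simp [hB, h01, h02]
    | succ n ih =>
      rw [hBr]
      refine (abs_sub _ _).trans ?_
      have h1 : |s n 1 / s n 0| ≤ 3 / 2 := by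
        rw [abs_div, abs_of_pos (hspos n), div_le_iff₀ (hspos n)]
        exact hs1 n
      have h2 : |s n 2 / s n 0| ≤ 9 / 2 := by
        rw [abs_div, abs_of_pos (hspos n), div_le_iff₀ (hspos n)]
        exact hs2 n
      have h3 : (s n 1 / s n 0) ^ 2 ≤ (3 / 2) ^ 2 := by
        rw [← sq_abs]
        exact pow_le_pow_left₀ (abs_nonneg _) h1 2
      have h4 : |s n 2 / s n 0 - (s n 1 / s n 0) ^ 2 / 2| ≤ 6 := by
        refine (abs_sub _ _).trans ?_
        rw [abs_of_nonneg (by positivity : 0 ≤ (s n 1 / s n 0) ^ 2 / 2)]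
        linarith
      push_cast
      linarith
  have hn : (0 : ℝ) ≤ n := Nat.cast_nonneg n
  have e1 : f n 1 = A n * f n 0 := by
    simp only [hA]
    rw [div_mul_cancel₀ _ (hpos n).ne']
  have e2 : f n 2 = (B n + A n ^ 2 / 2) * f n 0 := by
    simp only [hB, hA]
    have := (hpos n).ne'
    field_simp
    ring
  interval_cases k
  · rw [abs_of_pos (hpos n)]
    nlinarith [hhi n]
  · rw [e1, abs_mul, abs_of_pos (hpos n)]
    have : |A n| * f n 0 ≤ 3 / 2 * n * 2 :=
      mul_le_mul (ha n) (hhi n) (hpos n).le (by positivity)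
    nlinarith
  · rw [e2, abs_mul, abs_of_pos (hpos n)]
    have h3 : (A n) ^ 2 ≤ (3 / 2 * (n : ℝ)) ^ 2 := by
      rw [← sq_abs]
      exact pow_le_pow_left₀ (abs_nonneg _) (ha n) 2
    have h4 : |B n + A n ^ 2 / 2| ≤ 6 * n + (3 / 2 * (n : ℝ)) ^ 2 / 2 := by
      refine (abs_add_le _ _).trans ?_
      rw [abs_of_nonneg (by positivity : 0 ≤ A n ^ 2 / 2)]
      linarith [hb n]
    have : |B n + A n ^ 2 / 2| * f n 0 ≤ (6 * n + (3 / 2 * (n : ℝ)) ^ 2 / 2) * 2 :=
      mul_le_mul h4 (hhi n) (hpos n).le (by positivity)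
    nlinarith

/-- Polynomial bound for the jets of the function with `F (t + 1) F t = (3 t + 2) / (3 t + 1)`. -/
theorem jets_poly (F : ℤ → ℕ → ℝ) (h00 : F 0 0 = 1) (h01 : F 0 1 = 0) (h02 : F 0 2 = 0)
    (hr0 : ∀ t : ℤ, F (t + 1) 0 * F t 0 = (3 * (t : ℝ) + 2) / (3 * t + 1))
    (hr1 : ∀ t : ℤ, F (t + 1) 1 * F t 0 + F (t + 1) 0 * F t 1 = -3 / (3 * (t : ℝ) + 1) ^ 2)
    (hr2 : ∀ t : ℤ, F (t + 1) 2 * F t 0 + F (t + 1) 1 * F t 1 + F (t + 1) 0 * F t 2 =
      9 / (3 * (t : ℝ) + 1) ^ 3)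
    (a : ℤ) (k : ℕ) (hk : k ≤ 2) : |F a k| ≤ 15 * (|(a : ℝ)| + 1) ^ 2 := by
  -- forward chain
  have hfwd : ∀ n : ℕ, ∀ k ≤ 2, |F (n : ℤ) k| ≤ 15 * ((n : ℝ) + 1) ^ 2 := by
    have hprod : ∀ n : ℕ, F ((n : ℤ) + 1) 0 * F (n : ℤ) 0 = 1 + 1 / (3 * (n : ℝ) + 1) := by
      intro n
      rw [hr0 n]
      push_cast
      field_simp
      ring
    have hpos : ∀ n : ℕ, 0 < F (n : ℤ) 0 ∧ F (n : ℤ) 0 ≤ 2 ∧ 0 < F ((n : ℤ) + 1) 0 ∧
        F ((n : ℤ) + 1) 0 ≤ 2 := by
      intro n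
      induction n with
      | zero =>
        have := hprod 0
        simp only [Nat.cast_zero, mul_zero, zero_add, h00, mul_one] at this
        refine ⟨?_, ?_, ?_, ?_⟩
        · simp only [Nat.cast_zero, h00]; norm_num
        · simp only [Nat.cast_zero, h00]; norm_num
        · simp only [Nat.cast_zero, zero_add, this]; norm_num
        · simp only [Nat.cast_zero, zero_add, this]; norm_num
      | succ n ih =>
        obtain ⟨p1, p2, p3, p4⟩ := ih
        have e1 := hprod n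
        have e2 := hprod (n + 1)
        push_cast at e2 ⊢
        have hn : (0 : ℝ) ≤ n := Nat.cast_nonneg n
        have hT : 1 + 1 / (3 * ((n : ℝ) + 1) + 1) ≤ 1 + 1 / (3 * (n : ℝ) + 1) := by
          have : 1 / (3 * ((n : ℝ) + 1) + 1) ≤ 1 / (3 * (n : ℝ) + 1) :=
            one_div_le_one_div_of_le (by positivity) (by linarith)
          linarith
        have hTpos : 0 < 1 + 1 / (3 * ((n : ℝ) + 1) + 1) := by positivity
        have p5 : 0 < F ((n : ℤ) + 1 + 1) 0 := by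
          by_contra hcon
          push Not at hcon
          have := mul_nonpos_of_nonpos_of_nonneg hcon p3.le
          linarith
        refine ⟨p3, p4, p5, ?_⟩
        have h1 : F ((n : ℤ) + 1 + 1) 0 * F ((n : ℤ) + 1) 0 ≤
            F (n : ℤ) 0 * F ((n : ℤ) + 1) 0 := by
          rw [e2, mul_comm (F (n : ℤ) 0), e1]; exact hT
        have := le_of_mul_le_mul_right h1 p3
        linarith
    have hlo : ∀ n : ℕ, 1 / 2 ≤ F (n : ℤ) 0 := by
      intro n
      obtain ⟨p1, p2, p3, p4⟩ := hpos n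
      have e1 := hprod n
      have h1 : 1 ≤ F ((n : ℤ) + 1) 0 * F (n : ℤ) 0 := by
        rw [e1]
        have : 0 ≤ 1 / (3 * (n : ℝ) + 1) := by positivity
        linarith
      nlinarith
    intro n k hk
    refine chain_bound (fun n k => F (n : ℤ) k)
      (fun n k => if k = 0 then (3 * (n : ℝ) + 2) / (3 * n + 1) else
        if k = 1 then -3 / (3 * (n : ℝ) + 1) ^ 2 else 9 / (3 * (n : ℝ) + 1) ^ 3)
      h00 h01 h02 ?_ ?_ ?_ hlo (fun n => (hpos n).2.1) ?_ ?_ n k hk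
    · intro n
      have := hr0 n
      simp only [if_true]
      push_cast at this ⊢
      exact this
    · intro n
      have := hr1 n
      simp only [one_ne_zero, if_false, if_true]
      push_cast at this ⊢
      exact this
    · intro n
      have := hr2 n
      simp only [OfNat.ofNat_ne_zero, OfNat.ofNat_ne_one, if_false]
      push_cast at this ⊢
      exact this
    · intro n
      simp only [one_ne_zero, if_false, if_true]
      have hn : (0 : ℝ) ≤ n := Nat.cast_nonneg n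
      rw [abs_div, abs_neg, abs_of_pos (by norm_num : (0 : ℝ) < 3),
        abs_of_pos (by positivity : (0 : ℝ) < (3 * (n : ℝ) + 1) ^ 2)]
      rw [div_le_iff₀ (by positivity)]
      have : 3 / 2 * ((3 * (n : ℝ) + 2) / (3 * n + 1)) * (3 * (n : ℝ) + 1) ^ 2 =
          3 / 2 * (3 * (n : ℝ) + 2) * (3 * n + 1) := by field_simp
      rw [this]
      nlinarith
    · intro n
      simp only [OfNat.ofNat_ne_zero, OfNat.ofNat_ne_one, if_false, if_true]
      have hn : (0 : ℝ) ≤ n := Nat.cast_nonneg n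
      rw [abs_div, abs_of_pos (by norm_num : (0 : ℝ) < 9),
        abs_of_pos (by positivity : (0 : ℝ) < (3 * (n : ℝ) + 1) ^ 3)]
      rw [div_le_iff₀ (by positivity)]
      have : 9 / 2 * ((3 * (n : ℝ) + 2) / (3 * n + 1)) * (3 * (n : ℝ) + 1) ^ 3 =
          9 / 2 * (3 * (n : ℝ) + 2) * (3 * n + 1) ^ 2 := by field_simp
      rw [this]
      nlinarith [mul_nonneg hn hn, mul_nonneg hn (mul_nonneg hn hn)]
  -- backward chain
  have hbwd : ∀ n : ℕ, ∀ k ≤ 2, |F (-(n : ℤ)) k| ≤ 15 * ((n : ℝ) + 1) ^ 2 := by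
    have hidx : ∀ n : ℕ, (-(((n + 1 : ℕ)) : ℤ)) + 1 = -(n : ℤ) := by intro n; push_cast; ring
    have hprod : ∀ n : ℕ, F (-((n + 1 : ℕ) : ℤ)) 0 * F (-(n : ℤ)) 0 =
        1 - 1 / (3 * (n : ℝ) + 2) := by
      intro n
      have := hr0 (-((n + 1 : ℕ) : ℤ))
      rw [hidx] at this
      rw [mul_comm, this]
      push_cast
      have h1 : (3 * (-1 + -(n : ℝ)) + 1) ≠ 0 := by
        have hn : (0 : ℝ) ≤ n := Nat.cast_nonneg n
        intro h; linarith
      have h2 : (3 * (-((n : ℝ) + 1)) + 1) ≠ 0 := by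
        have hn : (0 : ℝ) ≤ n := Nat.cast_nonneg n
        intro h; linarith
      have h3 : (3 * (n : ℝ) + 2) ≠ 0 := by positivity
      rw [div_eq_iff h2, sub_mul, one_div, one_mul]
      field_simp
      ring
    have hpos : ∀ n : ℕ, 1 / 2 ≤ F (-(n : ℤ)) 0 ∧ 1 / 2 ≤ F (-((n + 1 : ℕ) : ℤ)) 0 := by
      intro n
      induction n with
      | zero =>
        have := hprod 0
        simp only [Nat.cast_zero, neg_zero, h00, mul_one, mul_zero, zero_add] at this
        refine ⟨?_, ?_⟩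
        · simp only [Nat.cast_zero, neg_zero, h00]; norm_num
        · rw [zero_add, this]; norm_num
      | succ n ih =>
        obtain ⟨p1, p3⟩ := ih
        have e1 := hprod n
        have e2 := hprod (n + 1)
        have hn : (0 : ℝ) ≤ n := Nat.cast_nonneg n
        have hT : 1 - 1 / (3 * (n : ℝ) + 2) ≤ 1 - 1 / (3 * ((n + 1 : ℕ) : ℝ) + 2) := by
          have : 1 / (3 * ((n + 1 : ℕ) : ℝ) + 2) ≤ 1 / (3 * (n : ℝ) + 2) := by
            apply one_div_le_one_div_of_le (by positivity)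
            push_cast; linarith
          linarith
        refine ⟨p3, ?_⟩
        have p3' : 0 < F (-((n + 1 : ℕ) : ℤ)) 0 := lt_of_lt_of_le (by norm_num) p3
        have h1 : F (-(n : ℤ)) 0 * F (-((n + 1 : ℕ) : ℤ)) 0 ≤
            F (-((n + 1 + 1 : ℕ) : ℤ)) 0 * F (-((n + 1 : ℕ) : ℤ)) 0 := by
          rw [e2, mul_comm (F (-(n : ℤ)) 0), e1]; exact hT
        have := le_of_mul_le_mul_right h1 p3'
        linarith
    have hhi : ∀ n : ℕ, F (-(n : ℤ)) 0 ≤ 2 := by
      intro n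
      obtain ⟨p1, p3⟩ := hpos n
      have e1 := hprod n
      have h1 : F (-((n + 1 : ℕ) : ℤ)) 0 * F (-(n : ℤ)) 0 ≤ 1 := by
        rw [e1]
        have : 0 ≤ 1 / (3 * (n : ℝ) + 2) := by positivity
        linarith
      nlinarith
    intro n k hk
    refine chain_bound (fun n k => F (-(n : ℤ)) k)
      (fun n k => if k = 0 then (3 * (n : ℝ) + 1) / (3 * n + 2) else
        if k = 1 then -3 / (3 * (n : ℝ) + 2) ^ 2 else -9 / (3 * (n : ℝ) + 2) ^ 3)
      ?_ ?_ ?_ ?_ ?_ ?_ (fun n => (hpos n).1) hhi ?_ ?_ n k hk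
    · simpa using h00
    · simpa using h01
    · simpa using h02
    · intro n
      have := hprod n
      simp only [if_true]
      rw [this]
      have h3 : (3 * (n : ℝ) + 2) ≠ 0 := by positivity
      field_simp
      ring
    · intro n
      have := hr1 (-((n + 1 : ℕ) : ℤ))
      rw [hidx] at this
      simp only [one_ne_zero, if_false, if_true]
      have e : (3 * (((-((n + 1 : ℕ) : ℤ)) : ℤ) : ℝ) + 1) ^ 2 = (3 * (n : ℝ) + 2) ^ 2 := by
        push_cast; ring
      rw [e] at this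
      rw [← this]; ring
    · intro n
      have := hr2 (-((n + 1 : ℕ) : ℤ))
      rw [hidx] at this
      simp only [OfNat.ofNat_ne_zero, OfNat.ofNat_ne_one, if_false]
      have e : (3 * (((-((n + 1 : ℕ) : ℤ)) : ℤ) : ℝ) + 1) ^ 3 = -(3 * (n : ℝ) + 2) ^ 3 := by
        push_cast; ring
      rw [e, div_neg, ← neg_div] at this
      rw [← this]; ring
    · intro n
      simp only [one_ne_zero, if_false, if_true]
      have hn : (0 : ℝ) ≤ n := Nat.cast_nonneg n
      rw [abs_div, abs_neg, abs_of_pos (by norm_num : (0 : ℝ) < 3),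
        abs_of_pos (by positivity : (0 : ℝ) < (3 * (n : ℝ) + 2) ^ 2)]
      rw [div_le_iff₀ (by positivity)]
      have : 3 / 2 * ((3 * (n : ℝ) + 1) / (3 * n + 2)) * (3 * (n : ℝ) + 2) ^ 2 =
          3 / 2 * (3 * (n : ℝ) + 1) * (3 * n + 2) := by field_simp
      rw [this]
      nlinarith
    · intro n
      simp only [OfNat.ofNat_ne_zero, OfNat.ofNat_ne_one, if_false, if_true]
      have hn : (0 : ℝ) ≤ n := Nat.cast_nonneg n
      rw [abs_div, abs_neg, abs_of_pos (by norm_num : (0 : ℝ) < 9),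
        abs_of_pos (by positivity : (0 : ℝ) < (3 * (n : ℝ) + 2) ^ 3)]
      rw [div_le_iff₀ (by positivity)]
      have : 9 / 2 * ((3 * (n : ℝ) + 1) / (3 * n + 2)) * (3 * (n : ℝ) + 2) ^ 3 =
          9 / 2 * (3 * (n : ℝ) + 1) * (3 * n + 2) ^ 2 := by field_simp
      rw [this]
      nlinarith [mul_nonneg hn hn, mul_nonneg hn (mul_nonneg hn hn)]
  rcases le_total 0 a with h | h
  · obtain ⟨n, rfl⟩ := Int.eq_ofNat_of_zero_le h
    have := hfwd n k hk
    have e : |(((n : ℕ) : ℤ) : ℝ)| = (n : ℝ) := by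
      rw [Int.cast_natCast, abs_of_nonneg (Nat.cast_nonneg n)]
    rw [e]; exact this
  · obtain ⟨n, hn⟩ := Int.eq_ofNat_of_zero_le (neg_nonneg.2 h)
    have ha : a = -(n : ℤ) := by omega
    subst ha
    have := hbwd n k hk
    have e : |((-((n : ℕ) : ℤ) : ℤ) : ℝ)| = (n : ℝ) := by
      push_cast
      rw [abs_neg, abs_of_nonneg (Nat.cast_nonneg n)]
    rw [e]; exact this

end Pool.Agent.H30.MM
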